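import Pool.Agent.V8H57.BX.Defs

/-!
# Substitution in terms, bounds, agreement
-/

set_option autoImplicit false

namespace Pool.Agent.V8H57.BX

open Pool.Agent.TH686.BA

/-- simultaneous substitution in a term -/
def sub {n k : ℕ} (σ : Fin n → Tm k) : Tm n → Tm k
  | .var i => σ i
  | .zero => .zero
  | .succ t => .succ (sub σ t)
  | .add s t => .add (sub σ s) (sub σ t)
  | .mul s t => .mul (sub σ s) (sub σ t)
  | .half t => .half (sub σ t)
  | .len t => .len (sub σ t)
  | .smash s t => .smash (sub σ s) (sub σ t)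

theorem eval_sub (M : Str) {n k : ℕ} (σ : Fin n → Tm k) (t : Tm n) (w : Fin k → M.carrier) :
    (sub σ t).eval M w = t.eval M (fun i => (σ i).eval M w) := by
  induction t with
  | var i => rfl
  | zero => rfl
  | succ t ih => simp only [sub, Tm.eval, ih]
  | add s t ih1 ih2 => simp only [sub, Tm.eval, ih1, ih2]
  | mul s t ih1 ih2 => simp only [sub, Tm.eval, ih1, ih2]
  | half t ih => simp only [sub, Tm.eval, ih]
  | len t ih => simp only [sub, Tm.eval, ih]
  | smash s t ih1 ih2 => simp only [sub, Tm.eval, ih1, ih2]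

/-- substitution of a term for the variable `0` -/
def inst {n : ℕ} (t : Tm n) (u : Tm (n + 1)) : Tm n :=
  sub (Fin.cons (α := fun _ => Tm n) t Tm.var) u

theorem eval_inst (M : Str) {n : ℕ} (t : Tm n) (u : Tm (n + 1)) (w : Fin n → M.carrier) :
    (inst t u).eval M w = u.eval M (Fin.cons (α := fun _ => M.carrier) (t.eval M w) w) := by
  rw [inst, eval_sub]
  congr 1
  funext i
  refine Fin.cases ?_ (fun j => ?_) i
  · rfl
  · rfl

/-- a bound for all arguments of the predicate in the formula -/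
def bd : ∀ {n : ℕ}, FR n → Tm n
  | _, .eq _ _ => .zero
  | _, .le _ _ => .zero
  | _, .rel t => t
  | _, .not φ => bd φ
  | _, .and φ ψ => .add (bd φ) (bd ψ)
  | _, .or φ ψ => .add (bd φ) (bd ψ)
  | _, .all t φ => inst t (bd φ)
  | _, .ex t φ => inst t (bd φ)

/-- value of a term in `ℕ` -/
abbrev ev {n : ℕ} (t : Tm n) (v : Fin n → ℕ) : ℕ := t.eval natStr v

theorem ev_mono {n : ℕ} (t : Tm n) (v w : Fin n → ℕ) (h : ∀ i, v i ≤ w i) : ev t v ≤ ev t w := by
  induction t with
  | var i => exact h i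
  | zero => exact le_rfl
  | succ t ih => exact Nat.succ_le_succ ih
  | add s t ih1 ih2 => exact Nat.add_le_add ih1 ih2
  | mul s t ih1 ih2 => exact Nat.mul_le_mul ih1 ih2
  | half t ih => exact Nat.div_le_div_right ih
  | len t ih => exact Nat.size_le_size ih
  | smash s t ih1 ih2 =>
    exact Nat.pow_le_pow_right (by norm_num) (Nat.mul_le_mul (Nat.size_le_size ih1)
      (Nat.size_le_size ih2))

theorem ev_cons_mono {n : ℕ} (t : Tm (n + 1)) (v : Fin n → ℕ) {a b : ℕ} (h : a ≤ b) :
    ev t (Fin.cons (α := fun _ => ℕ) a v) ≤ ev t (Fin.cons (α := fun _ => ℕ) b v) := by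
  apply ev_mono
  intro i
  refine Fin.cases ?_ (fun j => ?_) i
  · exact h
  · exact le_rfl

theorem bd_ex {n : ℕ} (t : Tm n) (φ : FR (n + 1)) (v : Fin n → ℕ) (a : ℕ) (h : a ≤ ev t v) :
    ev (bd φ) (Fin.cons (α := fun _ => ℕ) a v) ≤ ev (inst t (bd φ)) v := by
  rw [show ev (inst t (bd φ)) v = ev (bd φ) (Fin.cons (α := fun _ => ℕ) (ev t v) v) from
    eval_inst natStr t (bd φ) v]
  exact ev_cons_mono _ _ h

/-- value of a formula in `(ℕ, B)` -/
abbrev evF (B : ℕ → Prop) {n : ℕ} (φ : FR n) (v : Fin n → ℕ) : Prop := φ.eval (natR B) v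

theorem evF_congr {B C : ℕ → Prop} {n : ℕ} (φ : FR n) (v : Fin n → ℕ) (y : ℕ)
    (hy : ev (bd φ) v ≤ y) (h : ∀ m ≤ y, B m ↔ C m) : evF B φ v ↔ evF C φ v := by
  induction φ with
  | eq s t => exact Iff.rfl
  | le s t => exact Iff.rfl
  | rel t => exact h _ hy
  | not φ ih => exact not_congr (ih v hy)
  | and φ ψ ih1 ih2 =>
    exact and_congr (ih1 v ((Nat.le_add_right _ _).trans hy)) (ih2 v ((Nat.le_add_left _ _).trans hy))
  | or φ ψ ih1 ih2 =>
    exact or_congr (ih1 v ((Nat.le_add_right _ _).trans hy)) (ih2 v ((Nat.le_add_left _ _).trans hy))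
  | all t φ ih =>
    exact forall_congr' fun a => imp_congr_right fun ha => ih _ ((bd_ex t φ v a ha).trans hy)
  | ex t φ ih =>
    exact exists_congr fun a => and_congr_right fun ha => ih _ ((bd_ex t φ v a ha).trans hy)

end Pool.Agent.V8H57.BX
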