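import Pool.Agent.V8H57.BX.Key

/-!
# The structures are models of the whole theory
-/

set_option autoImplicit false

namespace Pool.Agent.V8H57.BX

open Pool.Agent.TH686.BA

variable {M : StrR} {S : ℕ → Prop}

theorem at_ (hM : Sat1 M (wld K S)) (hS : Lac S) {n : ℕ} (φ : FR n)
    (hφ : ∀ w : Fin n → (NS S).carrier, φ.eval (NS S) w) (v : Fin n → M.carrier) : φ.eval M v :=
  all_true hM hS φ hφ v

theorem basicM (hM : Sat1 M (wld K S)) (hS : Lac S) : M.toStr.Basic where
  b1 := fun x y => by
    have h := at_ hM hS (n := 2) (imp (.le (.var 1) (.var 0)) (.le (.var 1) (.succ (.var 0)))) (fun w => by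
      simp only [eval_imp, FR.eval, Tm.eval]
      exact natStr_basic.b1 _ _) ![x, y]
    simp only [eval_imp, FR.eval, Tm.eval] at h
    exact h
  b2 := fun x => by
    have h := at_ hM hS (n := 1) (.not (.eq (.var 0) (.succ (.var 0)))) (fun w => by
      simp only [FR.eval, Tm.eval]
      exact natStr_basic.b2 _) ![x]
    simp only [FR.eval, Tm.eval] at h
    exact h
  b3 := fun x => by
    have h := at_ hM hS (n := 1) (.le .zero (.var 0)) (fun w => by
      simp only [FR.eval, Tm.eval]
      exact natStr_basic.b3 _) ![x]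
    simp only [FR.eval, Tm.eval] at h
    exact h
  b4 := fun x y => by
    have h := at_ hM hS (n := 2) (ifff (.and (.le (.var 0) (.var 1)) (.not (.eq (.var 0) (.var 1)))) (.le (.succ (.var 0)) (.var 1))) (fun w => by
      simp only [eval_ifff, FR.eval, Tm.eval]
      exact natStr_basic.b4 _ _) ![x, y]
    simp only [eval_ifff, FR.eval, Tm.eval] at h
    exact h
  b5 := fun x => by
    have h := at_ hM hS (n := 1) (imp (.not (.eq (.var 0) .zero)) (.not (.eq (.mul (.succ (.succ .zero)) (.var 0)) .zero))) (fun w => by
      simp only [eval_imp, FR.eval, Tm.eval]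
      exact natStr_basic.b5 _) ![x]
    simp only [eval_imp, FR.eval, Tm.eval] at h
    exact h
  b6 := fun x y => by
    have h := at_ hM hS (n := 2) (.or (.le (.var 1) (.var 0)) (.le (.var 0) (.var 1))) (fun w => by
      simp only [FR.eval, Tm.eval]
      exact natStr_basic.b6 _ _) ![x, y]
    simp only [FR.eval, Tm.eval] at h
    exact h
  b7 := fun x y => by
    have h := at_ hM hS (n := 2) (imp (.and (.le (.var 0) (.var 1)) (.le (.var 1) (.var 0))) (.eq (.var 0) (.var 1))) (fun w => by
      simp only [eval_imp, FR.eval, Tm.eval]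
      exact natStr_basic.b7 _ _) ![x, y]
    simp only [eval_imp, FR.eval, Tm.eval] at h
    exact h
  b8 := fun x y z => by
    have h := at_ hM hS (n := 3) (imp (.and (.le (.var 0) (.var 1)) (.le (.var 1) (.var 2))) (.le (.var 0) (.var 2))) (fun w => by
      simp only [eval_imp, FR.eval, Tm.eval]
      exact natStr_basic.b8 _ _ _) ![x, y, z]
    simp only [eval_imp, FR.eval, Tm.eval] at h
    exact h
  b9 := by
    have h := at_ hM hS (n := 0) (.eq (.len .zero) .zero) (fun w => by
      simp only [FR.eval, Tm.eval]
      exact natStr_basic.b9 ) (fun i => i.elim0)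
    simp only [FR.eval, Tm.eval] at h
    exact h
  b10 := fun x => by
    have h := at_ hM hS (n := 1) (imp (.not (.eq (.var 0) .zero)) (.and (.eq (.len (.mul (.succ (.succ .zero)) (.var 0))) (.succ (.len (.var 0)))) (.eq (.len (.succ (.mul (.succ (.succ .zero)) (.var 0)))) (.succ (.len (.var 0)))))) (fun w => by
      simp only [eval_imp, FR.eval, Tm.eval]
      exact natStr_basic.b10 _) ![x]
    simp only [eval_imp, FR.eval, Tm.eval] at h
    exact h
  b11 := by
    have h := at_ hM hS (n := 0) (.eq (.len (.succ .zero)) (.succ .zero)) (fun w => by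
      simp only [FR.eval, Tm.eval]
      exact natStr_basic.b11 ) (fun i => i.elim0)
    simp only [FR.eval, Tm.eval] at h
    exact h
  b12 := fun x y => by
    have h := at_ hM hS (n := 2) (imp (.le (.var 0) (.var 1)) (.le (.len (.var 0)) (.len (.var 1)))) (fun w => by
      simp only [eval_imp, FR.eval, Tm.eval]
      exact natStr_basic.b12 _ _) ![x, y]
    simp only [eval_imp, FR.eval, Tm.eval] at h
    exact h
  b13 := fun x y => by
    have h := at_ hM hS (n := 2) (.eq (.len (.smash (.var 0) (.var 1))) (.succ (.mul (.len (.var 0)) (.len (.var 1))))) (fun w => by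
      simp only [FR.eval, Tm.eval]
      exact natStr_basic.b13 _ _) ![x, y]
    simp only [FR.eval, Tm.eval] at h
    exact h
  b14 := fun x => by
    have h := at_ hM hS (n := 1) (.eq (.smash .zero (.var 0)) (.succ .zero)) (fun w => by
      simp only [FR.eval, Tm.eval]
      exact natStr_basic.b14 _) ![x]
    simp only [FR.eval, Tm.eval] at h
    exact h
  b15 := fun x => by
    have h := at_ hM hS (n := 1) (imp (.not (.eq (.var 0) .zero)) (.and (.eq (.smash (.succ .zero) (.mul (.succ (.succ .zero)) (.var 0))) (.mul (.succ (.succ .zero)) (.smash (.succ .zero) (.var 0)))) (.eq (.smash (.succ .zero) (.succ (.mul (.succ (.succ .zero)) (.var 0)))) (.mul (.succ (.succ .zero)) (.smash (.succ .zero) (.var 0)))))) (fun w => by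
      simp only [eval_imp, FR.eval, Tm.eval]
      exact natStr_basic.b15 _) ![x]
    simp only [eval_imp, FR.eval, Tm.eval] at h
    exact h
  b16 := fun x y => by
    have h := at_ hM hS (n := 2) (.eq (.smash (.var 0) (.var 1)) (.smash (.var 1) (.var 0))) (fun w => by
      simp only [FR.eval, Tm.eval]
      exact natStr_basic.b16 _ _) ![x, y]
    simp only [FR.eval, Tm.eval] at h
    exact h
  b17 := fun x y z => by
    have h := at_ hM hS (n := 3) (imp (.eq (.len (.var 0)) (.len (.var 1))) (.eq (.smash (.var 0) (.var 2)) (.smash (.var 1) (.var 2)))) (fun w => by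
      simp only [eval_imp, FR.eval, Tm.eval]
      exact natStr_basic.b17 _ _ _) ![x, y, z]
    simp only [eval_imp, FR.eval, Tm.eval] at h
    exact h
  b18 := fun x y z u => by
    have h := at_ hM hS (n := 4) (imp (.eq (.len (.var 0)) (.add (.len (.var 2)) (.len (.var 3)))) (.eq (.smash (.var 0) (.var 1)) (.mul (.smash (.var 2) (.var 1)) (.smash (.var 3) (.var 1))))) (fun w => by
      simp only [eval_imp, FR.eval, Tm.eval]
      exact natStr_basic.b18 _ _ _ _) ![x, y, z, u]
    simp only [eval_imp, FR.eval, Tm.eval] at h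
    exact h
  b19 := fun x y => by
    have h := at_ hM hS (n := 2) (.le (.var 0) (.add (.var 0) (.var 1))) (fun w => by
      simp only [FR.eval, Tm.eval]
      exact natStr_basic.b19 _ _) ![x, y]
    simp only [FR.eval, Tm.eval] at h
    exact h
  b20 := fun x y => by
    have h := at_ hM hS (n := 2) (imp (.and (.le (.var 0) (.var 1)) (.not (.eq (.var 0) (.var 1)))) (.and (.le (.succ (.mul (.succ (.succ .zero)) (.var 0))) (.mul (.succ (.succ .zero)) (.var 1))) (.not (.eq (.succ (.mul (.succ (.succ .zero)) (.var 0))) (.mul (.succ (.succ .zero)) (.var 1)))))) (fun w => by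
      simp only [eval_imp, FR.eval, Tm.eval]
      exact natStr_basic.b20 _ _) ![x, y]
    simp only [eval_imp, FR.eval, Tm.eval] at h
    exact h
  b21 := fun x y => by
    have h := at_ hM hS (n := 2) (.eq (.add (.var 0) (.var 1)) (.add (.var 1) (.var 0))) (fun w => by
      simp only [FR.eval, Tm.eval]
      exact natStr_basic.b21 _ _) ![x, y]
    simp only [FR.eval, Tm.eval] at h
    exact h
  b22 := fun x => by
    have h := at_ hM hS (n := 1) (.eq (.add (.var 0) .zero) (.var 0)) (fun w => by
      simp only [FR.eval, Tm.eval]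
      exact natStr_basic.b22 _) ![x]
    simp only [FR.eval, Tm.eval] at h
    exact h
  b23 := fun x y => by
    have h := at_ hM hS (n := 2) (.eq (.add (.var 0) (.succ (.var 1))) (.succ (.add (.var 0) (.var 1)))) (fun w => by
      simp only [FR.eval, Tm.eval]
      exact natStr_basic.b23 _ _) ![x, y]
    simp only [FR.eval, Tm.eval] at h
    exact h
  b24 := fun x y z => by
    have h := at_ hM hS (n := 3) (.eq (.add (.add (.var 0) (.var 1)) (.var 2)) (.add (.var 0) (.add (.var 1) (.var 2)))) (fun w => by
      simp only [FR.eval, Tm.eval]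
      exact natStr_basic.b24 _ _ _) ![x, y, z]
    simp only [FR.eval, Tm.eval] at h
    exact h
  b25 := fun x y z => by
    have h := at_ hM hS (n := 3) (ifff (.le (.add (.var 0) (.var 1)) (.add (.var 0) (.var 2))) (.le (.var 1) (.var 2))) (fun w => by
      simp only [eval_ifff, FR.eval, Tm.eval]
      exact natStr_basic.b25 _ _ _) ![x, y, z]
    simp only [eval_ifff, FR.eval, Tm.eval] at h
    exact h
  b26 := fun x => by
    have h := at_ hM hS (n := 1) (.eq (.mul (.var 0) .zero) .zero) (fun w => by
      simp only [FR.eval, Tm.eval]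
      exact natStr_basic.b26 _) ![x]
    simp only [FR.eval, Tm.eval] at h
    exact h
  b27 := fun x y => by
    have h := at_ hM hS (n := 2) (.eq (.mul (.var 0) (.succ (.var 1))) (.add (.mul (.var 0) (.var 1)) (.var 0))) (fun w => by
      simp only [FR.eval, Tm.eval]
      exact natStr_basic.b27 _ _) ![x, y]
    simp only [FR.eval, Tm.eval] at h
    exact h
  b28 := fun x y => by
    have h := at_ hM hS (n := 2) (.eq (.mul (.var 0) (.var 1)) (.mul (.var 1) (.var 0))) (fun w => by
      simp only [FR.eval, Tm.eval]
      exact natStr_basic.b28 _ _) ![x, y]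
    simp only [FR.eval, Tm.eval] at h
    exact h
  b29 := fun x y z => by
    have h := at_ hM hS (n := 3) (.eq (.mul (.var 0) (.add (.var 1) (.var 2))) (.add (.mul (.var 0) (.var 1)) (.mul (.var 0) (.var 2)))) (fun w => by
      simp only [FR.eval, Tm.eval]
      exact natStr_basic.b29 _ _ _) ![x, y, z]
    simp only [FR.eval, Tm.eval] at h
    exact h
  b30 := fun x y z => by
    have h := at_ hM hS (n := 3) (imp (.le (.succ .zero) (.var 0)) (ifff (.le (.mul (.var 0) (.var 1)) (.mul (.var 0) (.var 2))) (.le (.var 1) (.var 2)))) (fun w => by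
      simp only [eval_imp, eval_ifff, FR.eval, Tm.eval]
      exact natStr_basic.b30 _ _ _) ![x, y, z]
    simp only [eval_imp, eval_ifff, FR.eval, Tm.eval] at h
    exact h
  b31 := fun x => by
    have h := at_ hM hS (n := 1) (imp (.not (.eq (.var 0) .zero)) (.eq (.len (.var 0)) (.succ (.len (.half (.var 0)))))) (fun w => by
      simp only [eval_imp, FR.eval, Tm.eval]
      exact natStr_basic.b31 _) ![x]
    simp only [eval_imp, FR.eval, Tm.eval] at h
    exact h
  b32 := fun x y => by
    have h := at_ hM hS (n := 2) (ifff (.eq (.var 0) (.half (.var 1))) (.or (.eq (.mul (.succ (.succ .zero)) (.var 0)) (.var 1)) (.eq (.succ (.mul (.succ (.succ .zero)) (.var 0))) (.var 1)))) (fun w => by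
      simp only [eval_ifff, FR.eval, Tm.eval]
      exact natStr_basic.b32 _ _) ![x, y]
    simp only [eval_ifff, FR.eval, Tm.eval] at h
    exact h

end Pool.Agent.V8H57.BX
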