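import Pool.Agent.V8H57.BX.Code

/-!
# Certificates
-/

set_option autoImplicit false

namespace Pool.Agent.V8H57.BX

open Pool.Agent.TH686.BA

theorem pow_three (L p q : ℕ) (hL : 2 ≤ L) : L ^ p + L ^ q + 1 ≤ L ^ (p + q + 2) := by
  have h1 : L ^ p ≤ L ^ (p + q) := Nat.pow_le_pow_right (by omega) (by omega)
  have h2 : L ^ q ≤ L ^ (p + q) := Nat.pow_le_pow_right (by omega) (by omega)
  have h3 : 1 ≤ L ^ (p + q) := Nat.one_le_pow _ _ (by omega)
  have h4 : L ^ (p + q + 2) = L ^ (p + q) * (L * L) := by ring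
  have h5 : 4 ≤ L * L := by nlinarith
  rw [h4]
  nlinarith

theorem size_le_self' (a : ℕ) : a.size ≤ a := Nat.size_le.2 Nat.lt_two_pow_self

theorem size_add_le (a b : ℕ) : (a + b).size ≤ a.size + b.size + 1 := by
  rw [Nat.size_le]
  have h1 := Nat.lt_size_self a
  have h2 := Nat.lt_size_self b
  have h3 : 2 ^ a.size ≤ 2 ^ (a.size + b.size) := Nat.pow_le_pow_right (by norm_num) (by omega)
  have h4 : 2 ^ b.size ≤ 2 ^ (a.size + b.size) := Nat.pow_le_pow_right (by norm_num) (by omega)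
  rw [pow_succ]
  omega

theorem size_mul_le (a b : ℕ) : (a * b).size ≤ a.size + b.size := by
  rw [Nat.size_le, pow_add]
  rcases Nat.eq_zero_or_pos a with rfl | ha
  · simp
  · exact Nat.mul_lt_mul'' (Nat.lt_size_self a) (Nat.lt_size_self b)

theorem size_bd {n : ℕ} (t : Tm n) : ∃ k, ∀ L, 2 ≤ L → ∀ v : Fin n → ℕ,
    (∀ i, (v i).size ≤ L) → (ev t v).size ≤ L ^ k := by
  induction t with
  | var i => exact ⟨1, fun L _ v hv => by rw [pow_one]; exact hv i⟩
  | zero => exact ⟨0, fun L _ v _ => by simp [ev, Tm.eval, natStr]⟩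
  | succ t ih =>
    obtain ⟨k, hk⟩ := ih
    refine ⟨k + 0 + 2, fun L hL v hv => ?_⟩
    have h1 := hk L hL v hv
    have h2 : (ev t v + 1).size ≤ (ev t v).size + (1 : ℕ).size + 1 := size_add_le _ _
    have h3 := pow_three L k 0 hL
    simp only [pow_zero, Nat.size_one] at h2 h3
    exact h2.trans (by omega)
  | add s t ih1 ih2 =>
    obtain ⟨k, hk⟩ := ih1
    obtain ⟨l, hl⟩ := ih2
    refine ⟨k + l + 2, fun L hL v hv => ?_⟩
    have h1 := hk L hL v hv
    have h2 := hl L hL v hv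
    have h3 : (ev s v).size + (ev t v).size + 1 ≤ L ^ k + L ^ l + 1 := by omega
    exact (size_add_le _ _).trans (h3.trans (pow_three L k l hL))
  | mul s t ih1 ih2 =>
    obtain ⟨k, hk⟩ := ih1
    obtain ⟨l, hl⟩ := ih2
    refine ⟨k + l + 2, fun L hL v hv => ?_⟩
    have h1 := hk L hL v hv
    have h2 := hl L hL v hv
    have h3 : (ev s v).size + (ev t v).size ≤ L ^ k + L ^ l + 1 := by omega
    exact (size_mul_le _ _).trans (h3.trans (pow_three L k l hL))
  | half t ih =>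
    obtain ⟨k, hk⟩ := ih
    refine ⟨k, fun L hL v hv => ?_⟩
    exact (Nat.size_le_size (Nat.div_le_self _ _)).trans (hk L hL v hv)
  | len t ih =>
    obtain ⟨k, hk⟩ := ih
    refine ⟨k, fun L hL v hv => ?_⟩
    exact (size_le_self' _).trans (hk L hL v hv)
  | smash s t ih1 ih2 =>
    obtain ⟨k, hk⟩ := ih1
    obtain ⟨l, hl⟩ := ih2
    refine ⟨k + l + 2, fun L hL v hv => ?_⟩
    have h1 := hk L hL v hv
    have h2 := hl L hL v hv
    have h3 : (2 ^ ((ev s v).size * (ev t v).size)).size =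
      (ev s v).size * (ev t v).size + 1 := Nat.size_pow
    have h4 : (ev s v).size * (ev t v).size ≤ L ^ k * L ^ l := Nat.mul_le_mul h1 h2
    rw [← pow_add] at h4
    have h5 := pow_three L (k + l) 0 hL
    have h6 : (2 ^ ((ev s v).size * (ev t v).size)).size ≤ L ^ (k + l + 2) := by
      rw [h3]
      have h7 : k + l + 0 + 2 = k + l + 2 := rfl
      rw [h7] at h5
      omega
    exact h6

/-- the truth value `b` of the formula has short certificates -/
def Cert (b : Bool) {n : ℕ} (θ : FR n) : Prop :=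
  ∃ c, ∀ L, 2 ≤ L → ∀ v : Fin n → ℕ, (∀ i, (v i).size ≤ L) → ∀ B : ℕ → Prop,
    (evF B θ v ↔ b = true) → ∃ C : Finset ℕ, C.card ≤ L ^ c ∧
      ∀ B' : ℕ → Prop, (∀ m ∈ C, (B' m ↔ B m)) → (evF B' θ v ↔ b = true)

theorem Cert.rel (b : Bool) {n : ℕ} (t : Tm n) : Cert b (FR.rel t) := by
  refine ⟨0, fun L _ v _ B hB => ⟨{ev t v}, by simp, fun B' hB' => ?_⟩⟩
  exact (hB' _ (Finset.mem_singleton_self _)).trans hB

theorem Cert.not {b : Bool} {n : ℕ} {θ : FR n} (h : Cert (!b) θ) : Cert b (FR.not θ) := by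
  obtain ⟨c, hc⟩ := h
  refine ⟨c, fun L hL v hv B hB => ?_⟩
  have h1 : evF B θ v ↔ (!b) = true := by
    have h2 : (¬ evF B θ v) ↔ b = true := hB
    cases b <;> simp at h2 ⊢ <;> tauto
  obtain ⟨C, h2, h3⟩ := hc L hL v hv B h1
  refine ⟨C, h2, fun B' hB' => ?_⟩
  have h4 := h3 B' hB'
  show (¬ evF B' θ v) ↔ b = true
  cases b <;> simp at h4 ⊢ <;> tauto

theorem Cert.and {b : Bool} {n : ℕ} {θ ψ : FR n} (h : Cert b θ) (h' : Cert b ψ) :
    Cert b (FR.and θ ψ) := by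
  classical
  obtain ⟨c, hc⟩ := h
  obtain ⟨d, hd⟩ := h'
  refine ⟨c + d + 2, fun L hL v hv B hB => ?_⟩
  have hpow := pow_three L c d hL
  have hB2 : (evF B θ v ∧ evF B ψ v) ↔ b = true := hB
  cases b with
  | true =>
    simp only [iff_true] at hB2
    obtain ⟨C, h2, h3⟩ := hc L hL v hv B (by simpa using hB2.1)
    obtain ⟨C', h2', h3'⟩ := hd L hL v hv B (by simpa using hB2.2)
    refine ⟨C ∪ C', (Finset.card_union_le _ _).trans (by omega), fun B' hB' => ?_⟩
    have h4 := h3 B' fun m hm => hB' m (Finset.mem_union_left _ hm)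
    have h5 := h3' B' fun m hm => hB' m (Finset.mem_union_right _ hm)
    simp only [iff_true] at h4 h5
    show (evF B' θ v ∧ evF B' ψ v) ↔ true = true
    simp only [iff_true]
    exact ⟨h4, h5⟩
  | false =>
    simp only [Bool.false_eq_true, iff_false, not_and_or] at hB2
    rcases hB2 with h1 | h1
    · obtain ⟨C, h2, h3⟩ := hc L hL v hv B (by simpa using h1)
      refine ⟨C, h2.trans (by omega), fun B' hB' => ?_⟩
      have h4 := h3 B' hB'
      simp only [Bool.false_eq_true, iff_false] at h4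
      show (evF B' θ v ∧ evF B' ψ v) ↔ false = true
      simp only [Bool.false_eq_true, iff_false]
      exact fun h => h4 h.1
    · obtain ⟨C, h2, h3⟩ := hd L hL v hv B (by simpa using h1)
      refine ⟨C, h2.trans (by omega), fun B' hB' => ?_⟩
      have h4 := h3 B' hB'
      simp only [Bool.false_eq_true, iff_false] at h4
      show (evF B' θ v ∧ evF B' ψ v) ↔ false = true
      simp only [Bool.false_eq_true, iff_false]
      exact fun h => h4 h.2

theorem Cert.congr {b : Bool} {n : ℕ} {θ ψ : FR n} (h : Cert b θ)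
    (he : ∀ (B : ℕ → Prop) (v : Fin n → ℕ), evF B θ v ↔ evF B ψ v) : Cert b ψ := by
  obtain ⟨c, hc⟩ := h
  refine ⟨c, fun L hL v hv B hB => ?_⟩
  obtain ⟨C, h2, h3⟩ := hc L hL v hv B ((he B v).trans hB)
  exact ⟨C, h2, fun B' hB' => (he B' v).symm.trans (h3 B' hB')⟩

theorem Cert.or {b : Bool} {n : ℕ} {θ ψ : FR n} (h : Cert b θ) (h' : Cert b ψ) :
    Cert b (FR.or θ ψ) := by
  have h1 : Cert (!b) (FR.not θ) := Cert.not (by rw [Bool.not_not]; exact h)
  have h2 : Cert (!b) (FR.not ψ) := Cert.not (by rw [Bool.not_not]; exact h')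
  refine (Cert.not (h1.and h2)).congr fun B v => ?_
  show ¬ (¬ evF B θ v ∧ ¬ evF B ψ v) ↔ (evF B θ v ∨ evF B ψ v)
  tauto

theorem small_cons {n : ℕ} {L k : ℕ} (hL : 2 ≤ L) {v : Fin n → ℕ} (hv : ∀ i, (v i).size ≤ L)
    {a : ℕ} (ha : a.size ≤ L ^ k) :
    ∀ i, ((Fin.cons (α := fun _ => ℕ) a v : Fin (n + 1) → ℕ) i).size ≤ L ^ (k + 1) := by
  intro i
  have h1 : L ^ k ≤ L ^ (k + 1) := Nat.pow_le_pow_right (by omega) (by omega)
  have h2 : L ^ 1 ≤ L ^ (k + 1) := Nat.pow_le_pow_right (by omega) (by omega)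
  rw [pow_one] at h2
  refine Fin.cases ?_ (fun j => ?_) i
  · exact ha.trans h1
  · exact (hv j).trans h2

theorem two_le_pow {L : ℕ} (hL : 2 ≤ L) (k : ℕ) : 2 ≤ L ^ (k + 1) := by
  have h2 : L ^ 1 ≤ L ^ (k + 1) := Nat.pow_le_pow_right (by omega) (by omega)
  rw [pow_one] at h2
  omega

theorem Cert.ex {n : ℕ} (t : Tm n) {θ : FR (n + 1)} (h : Cert true θ) :
    Cert true (FR.ex t θ) := by
  obtain ⟨c, hc⟩ := h
  obtain ⟨k, hk⟩ := size_bd t
  refine ⟨(k + 1) * c, fun L hL v hv B hB => ?_⟩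
  have hB2 : (∃ a, a ≤ ev t v ∧ evF B θ (Fin.cons (α := fun _ => ℕ) a v)) ↔ true = true := hB
  simp only [iff_true] at hB2
  obtain ⟨a, ha, h1⟩ := hB2
  obtain ⟨C, h2, h3⟩ := hc (L ^ (k + 1)) (two_le_pow hL k) _
    (small_cons hL hv ((Nat.size_le_size ha).trans (hk L hL v hv))) B (by simpa using h1)
  rw [← pow_mul] at h2
  refine ⟨C, h2, fun B' hB' => ?_⟩
  have h4 := h3 B' hB'
  simp only [iff_true] at h4
  show (∃ a, a ≤ ev t v ∧ evF B' θ (Fin.cons (α := fun _ => ℕ) a v)) ↔ true = true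
  simp only [iff_true]
  exact ⟨a, ha, h4⟩

theorem Cert.all {n : ℕ} (t : Tm n) {θ : FR (n + 1)} (h : Cert false θ) :
    Cert false (FR.all t θ) := by
  have h1 : Cert true (FR.not θ) := Cert.not h
  have h2 : Cert false (FR.not (FR.ex t (FR.not θ))) := Cert.not (Cert.ex t h1)
  refine h2.congr fun B v => ?_
  show (¬ ∃ a, a ≤ ev t v ∧ ¬ evF B θ (Fin.cons (α := fun _ => ℕ) a v)) ↔
    ∀ a, a ≤ ev t v → evF B θ (Fin.cons (α := fun _ => ℕ) a v)
  push Not
  exact Iff.rfl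

theorem Cert.sall_true {n : ℕ} (t : Tm n) {θ : FR (n + 1)} (h : Cert true θ) :
    Cert true (FR.all (Tm.len t) θ) := by
  classical
  obtain ⟨c, hc⟩ := h
  obtain ⟨k, hk⟩ := size_bd t
  refine ⟨(k + 1) * c + (k + 1), fun L hL v hv B hB => ?_⟩
  have hB2 : (∀ a, a ≤ (ev t v).size → evF B θ (Fin.cons (α := fun _ => ℕ) a v)) ↔
    true = true := hB
  simp only [iff_true] at hB2
  have hcert : ∀ a, ∃ C : Finset ℕ, a ≤ (ev t v).size → (C.card ≤ L ^ ((k + 1) * c) ∧
      ∀ B' : ℕ → Prop, (∀ m ∈ C, (B' m ↔ B m)) →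
        evF B' θ (Fin.cons (α := fun _ => ℕ) a v)) := by
    intro a
    by_cases ha : a ≤ (ev t v).size
    · have ha2 : a.size ≤ L ^ k := (size_le_self' a).trans (ha.trans (hk L hL v hv))
      obtain ⟨C, h2, h3⟩ := hc (L ^ (k + 1)) (two_le_pow hL k) _
        (small_cons hL hv ha2) B (by simpa using hB2 a ha)
      rw [← pow_mul] at h2
      refine ⟨C, fun _ => ⟨h2, fun B' hB' => ?_⟩⟩
      have h4 := h3 B' hB'
      simpa using h4
    · exact ⟨∅, fun h => absurd h ha⟩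
  choose C hC using hcert
  refine ⟨(Finset.range ((ev t v).size + 1)).biUnion C, ?_, fun B' hB' => ?_⟩
  · have h1 : ((Finset.range ((ev t v).size + 1)).biUnion C).card ≤
        ∑ a ∈ Finset.range ((ev t v).size + 1), L ^ ((k + 1) * c) :=
      Finset.card_biUnion_le.trans (Finset.sum_le_sum fun a ha =>
        (hC a (by rw [Finset.mem_range] at ha; omega)).1)
    rw [Finset.sum_const, Finset.card_range, smul_eq_mul] at h1
    have h2 := hk L hL v hv
    have h3 : L ^ k + 1 ≤ L ^ (k + 1) := by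
      have h4 : 1 ≤ L ^ k := Nat.one_le_pow _ _ (by omega)
      rw [pow_succ]
      nlinarith
    refine h1.trans ?_
    rw [pow_add, mul_comm]
    exact Nat.mul_le_mul_left _ (by omega)
  · show (∀ a, a ≤ (ev t v).size → evF B' θ (Fin.cons (α := fun _ => ℕ) a v)) ↔ true = true
    simp only [iff_true]
    intro a ha
    refine (hC a ha).2 B' fun m hm => hB' m ?_
    exact Finset.mem_biUnion.2 ⟨a, Finset.mem_range.2 (by omega), hm⟩

theorem Cert.sall {b : Bool} {n : ℕ} (t : Tm n) {θ : FR (n + 1)} (h : Cert b θ) :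
    Cert b (FR.all (Tm.len t) θ) := by
  cases b
  · exact Cert.all _ h
  · exact Cert.sall_true t h

theorem Cert.sex {b : Bool} {n : ℕ} (t : Tm n) {θ : FR (n + 1)} (h : Cert b θ) :
    Cert b (FR.ex (Tm.len t) θ) := by
  have h1 : Cert (!b) (FR.not θ) := Cert.not (by rw [Bool.not_not]; exact h)
  refine (Cert.not (Cert.sall t h1)).congr fun B v => ?_
  show (¬ ∀ a, a ≤ (ev t v).size → ¬ evF B θ (Fin.cons (α := fun _ => ℕ) a v)) ↔
    ∃ a, a ≤ (ev t v).size ∧ evF B θ (Fin.cons (α := fun _ => ℕ) a v)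
  push Not
  exact Iff.rfl

theorem cert_lv {b : Bool} {i n : ℕ} {θ : FR n} (h : Lv b i θ) :
    (i = 0 → ∀ b', Cert b' θ) ∧ (i = 1 → Cert b θ) := by
  induction h with
  | eq s t => exact ⟨fun _ b' => ⟨0, fun L _ v _ B hB => ⟨∅, by simp, fun B' _ => hB⟩⟩,
      fun _ => ⟨0, fun L _ v _ B hB => ⟨∅, by simp, fun B' _ => hB⟩⟩⟩
  | le s t => exact ⟨fun _ b' => ⟨0, fun L _ v _ B hB => ⟨∅, by simp, fun B' _ => hB⟩⟩,
      fun _ => ⟨0, fun L _ v _ B hB => ⟨∅, by simp, fun B' _ => hB⟩⟩⟩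
  | rel t => exact ⟨fun _ b' => Cert.rel _ t, fun _ => Cert.rel _ t⟩
  | not _ ih => exact ⟨fun h b' => (ih.1 h _).not, fun h => (ih.2 h).not⟩
  | and _ _ ih1 ih2 =>
    exact ⟨fun h b' => (ih1.1 h _).and (ih2.1 h _), fun h => (ih1.2 h).and (ih2.2 h)⟩
  | or _ _ ih1 ih2 =>
    exact ⟨fun h b' => (ih1.1 h _).or (ih2.1 h _), fun h => (ih1.2 h).or (ih2.2 h)⟩
  | sall t _ ih => exact ⟨fun h b' => (ih.1 h _).sall t, fun h => (ih.2 h).sall t⟩
  | sex t _ ih => exact ⟨fun h b' => (ih.1 h _).sex t, fun h => (ih.2 h).sex t⟩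
  | all t _ ih => exact ⟨fun h => absurd h (by omega), fun h => (ih.2 h).all t⟩
  | ex t _ ih => exact ⟨fun h => absurd h (by omega), fun h => (ih.2 h).ex t⟩
  | up _ ih => exact ⟨fun h => absurd h (by omega), fun h => ih.1 (by omega) _⟩

end Pool.Agent.V8H57.BX
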