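import Pool.Agent.V8H57.BX.Base

/-!
# Codes of formulas and queries
-/

set_option autoImplicit false

namespace Pool.Agent.V8H57.BX

open Pool.Agent.TH686.BA

/-- code of a term -/
def cT {n : ℕ} : Tm n → ℕ
  | .var i => Nat.pair 0 i
  | .zero => Nat.pair 1 0
  | .succ t => Nat.pair 2 (cT t)
  | .add s t => Nat.pair 3 (Nat.pair (cT s) (cT t))
  | .mul s t => Nat.pair 4 (Nat.pair (cT s) (cT t))
  | .half t => Nat.pair 5 (cT t)
  | .len t => Nat.pair 6 (cT t)
  | .smash s t => Nat.pair 7 (Nat.pair (cT s) (cT t))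

theorem cT_inj {n : ℕ} (s : Tm n) : ∀ t : Tm n, cT s = cT t → s = t := by
  induction s with
  | var i => intro t h; cases t <;> simp [cT, Nat.pair_eq_pair, Fin.ext_iff] at h ⊢ ; exact h
  | zero => intro t h; cases t <;> simp [cT, Nat.pair_eq_pair] at h ⊢
  | succ s ih =>
    intro t h
    cases t <;> simp [cT, Nat.pair_eq_pair] at h ⊢
    exact ih _ h
  | add s t ih1 ih2 =>
    intro t h
    cases t <;> simp [cT, Nat.pair_eq_pair] at h ⊢
    exact ⟨ih1 _ h.1, ih2 _ h.2⟩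
  | mul s t ih1 ih2 =>
    intro t h
    cases t <;> simp [cT, Nat.pair_eq_pair] at h ⊢
    exact ⟨ih1 _ h.1, ih2 _ h.2⟩
  | half s ih =>
    intro t h
    cases t <;> simp [cT, Nat.pair_eq_pair] at h ⊢
    exact ih _ h
  | len s ih =>
    intro t h
    cases t <;> simp [cT, Nat.pair_eq_pair] at h ⊢
    exact ih _ h
  | smash s t ih1 ih2 =>
    intro t h
    cases t <;> simp [cT, Nat.pair_eq_pair] at h ⊢
    exact ⟨ih1 _ h.1, ih2 _ h.2⟩

/-- code of a formula -/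
def cF : ∀ {n : ℕ}, FR n → ℕ
  | _, .eq s t => Nat.pair 0 (Nat.pair (cT s) (cT t))
  | _, .le s t => Nat.pair 1 (Nat.pair (cT s) (cT t))
  | _, .rel t => Nat.pair 2 (cT t)
  | _, .not φ => Nat.pair 3 (cF φ)
  | _, .and φ ψ => Nat.pair 4 (Nat.pair (cF φ) (cF ψ))
  | _, .or φ ψ => Nat.pair 5 (Nat.pair (cF φ) (cF ψ))
  | _, .all t φ => Nat.pair 6 (Nat.pair (cT t) (cF φ))
  | _, .ex t φ => Nat.pair 7 (Nat.pair (cT t) (cF φ))

theorem cF_inj {n : ℕ} (φ : FR n) : ∀ ψ : FR n, cF φ = cF ψ → φ = ψ := by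
  induction φ with
  | eq s t =>
    intro ψ h
    cases ψ <;> simp [cF, Nat.pair_eq_pair] at h ⊢
    exact ⟨cT_inj _ _ h.1, cT_inj _ _ h.2⟩
  | le s t =>
    intro ψ h
    cases ψ <;> simp [cF, Nat.pair_eq_pair] at h ⊢
    exact ⟨cT_inj _ _ h.1, cT_inj _ _ h.2⟩
  | rel t =>
    intro ψ h
    cases ψ <;> simp [cF, Nat.pair_eq_pair] at h ⊢
    exact cT_inj _ _ h
  | not φ ih =>
    intro ψ h
    cases ψ <;> simp [cF, Nat.pair_eq_pair] at h ⊢
    exact ih _ h
  | and φ χ ih1 ih2 =>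
    intro ψ h
    cases ψ <;> simp [cF, Nat.pair_eq_pair] at h ⊢
    exact ⟨ih1 _ h.1, ih2 _ h.2⟩
  | or φ χ ih1 ih2 =>
    intro ψ h
    cases ψ <;> simp [cF, Nat.pair_eq_pair] at h ⊢
    exact ⟨ih1 _ h.1, ih2 _ h.2⟩
  | all t φ ih =>
    intro ψ h
    cases ψ <;> simp [cF, Nat.pair_eq_pair] at h ⊢
    exact ⟨cT_inj _ _ h.1, ih _ h.2⟩
  | ex t φ ih =>
    intro ψ h
    cases ψ <;> simp [cF, Nat.pair_eq_pair] at h ⊢
    exact ⟨cT_inj _ _ h.1, ih _ h.2⟩

instance : Countable (FR 1) := ⟨cF, fun _ _ h => cF_inj _ _ h⟩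

/-- code of a formula with its number of variables -/
def cc {n : ℕ} (φ : FR n) : ℕ := Nat.pair n (cF φ) + 1

/-- a pairing function given by a term -/
def P (a b : ℕ) : ℕ := (a + b) * (a + b) + a

theorem P_inj {a b c d : ℕ} (h : P a b = P c d) : a = c ∧ b = d := by
  simp only [P] at h
  rcases lt_trichotomy (a + b) (c + d) with h1 | h1 | h1
  · exfalso
    have h2 : (a + b + 1) * (a + b + 1) ≤ (c + d) * (c + d) := Nat.mul_le_mul h1 h1
    nlinarith
  · rw [h1] at h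
    omega
  · exfalso
    have h2 : (c + d + 1) * (c + d + 1) ≤ (a + b) * (a + b) := Nat.mul_le_mul h1 h1
    nlinarith

theorem le_P (a b : ℕ) : b ≤ P a b := by
  simp only [P]
  nlinarith [Nat.zero_le (a * b), Nat.zero_le (a * a), Nat.le_mul_self b]

theorem lt_P (a b : ℕ) (h : 1 ≤ a) : b < P a b := by
  simp only [P]
  nlinarith [Nat.zero_le (a * b), Nat.zero_le (a * a), Nat.le_mul_self b]

theorem le_P_left (a b : ℕ) : a ≤ P a b := by
  simp only [P]
  omega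

/-- code of a list -/
def cdl : List ℕ → ℕ
  | [] => 0
  | a :: l => P a (cdl l)

theorem cdl_inj (l : List ℕ) : ∀ l' : List ℕ, l.length = l'.length → cdl l = cdl l' → l = l' := by
  induction l with
  | nil =>
    intro l' h _
    exact (List.length_eq_zero_iff.1 h.symm).symm
  | cons a l ih =>
    intro l' h h2
    cases l' with
    | nil => simp at h
    | cons b l' =>
      simp only [cdl] at h2
      have h3 := P_inj h2
      rw [h3.1, ih l' (by simpa using h) h3.2]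

/-- the number which codes a query -/
def Q {n : ℕ} (φ : FR n) (v : Fin n → ℕ) (e s y : ℕ) : ℕ :=
  cdl (cc φ :: e :: s :: y :: List.ofFn v)

theorem Q_inj {n m : ℕ} {φ : FR n} {ψ : FR m} {v : Fin n → ℕ} {w : Fin m → ℕ}
    {e s y e' s' y' : ℕ} (h : Q φ v e s y = Q ψ w e' s' y') :
    (⟨n, φ, v⟩ : (n : ℕ) × FR n × (Fin n → ℕ)) = ⟨m, ψ, w⟩ ∧ e = e' ∧ s = s' ∧ y = y' := by
  have h1 : cc φ = cc ψ := (P_inj h).1
  simp only [cc, Nat.add_right_cancel_iff, Nat.pair_eq_pair] at h1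
  obtain ⟨rfl, h2⟩ := h1
  have h3 := cF_inj _ _ h2
  subst h3
  have h4 := cdl_inj _ _ (by simp) h
  simp only [List.cons.injEq, true_and] at h4
  obtain ⟨h5, h6, h7, h8⟩ := h4
  refine ⟨?_, h5, h6, h7⟩
  rw [List.ofFn_injective h8]

theorem lt_Q {n : ℕ} (φ : FR n) (v : Fin n → ℕ) (e s y : ℕ) : y < Q φ v e s y := by
  have h1 : y ≤ P y (cdl (List.ofFn v)) := le_P_left _ _
  have h2 := le_P s (P y (cdl (List.ofFn v)))
  have h3 := le_P e (P s (P y (cdl (List.ofFn v))))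
  have h4 := lt_P (cc φ) (P e (P s (P y (cdl (List.ofFn v))))) (by simp [cc])
  show y < P (cc φ) (P e (P s (P y (cdl (List.ofFn v)))))
  omega

theorem Q_ne {n : ℕ} (φ : FR n) (v : Fin n → ℕ) (e s y : ℕ) (z : ℕ) : Q φ v e s y ≠ P 0 z := by
  intro h
  have h1 : cc φ = 0 := (P_inj h).1
  simp [cc] at h1

/-- the world composed of two sets -/
def wld (K F : ℕ → Prop) (m : ℕ) : Prop := (m % 2 = 0 ∧ K (m / 2)) ∨ (m % 2 = 1 ∧ F (m / 2))

theorem wld_even (K F : ℕ → Prop) (m : ℕ) : wld K F (2 * m) ↔ K m := by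
  have h1 : 2 * m % 2 = 0 := by omega
  have h2 : 2 * m / 2 = m := by omega
  simp [wld, h1, h2]

theorem wld_odd (K F : ℕ → Prop) (m : ℕ) : wld K F (2 * m + 1) ↔ F m := by
  have h1 : (2 * m + 1) % 2 = 1 := by omega
  have h2 : (2 * m + 1) / 2 = m := by omega
  simp [wld, h1, h2]

/-- the finite set described by the numbers -/
def Fs (e s y n : ℕ) : Prop := (n + 1 ≤ y.size ∧ e.testBit n = true) ∨ (s ≠ 0 ∧ n = s)

/-- the set of the answers -/
def K (q : ℕ) : Prop :=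
  (∃ j e : ℕ, q = P 0 (P j e) ∧ e.testBit j = true) ∨
    ∃ (n : ℕ) (φ : FR n) (v : Fin n → ℕ) (e s y : ℕ), q = Q φ v e s y ∧
      evF (fun m => m ≤ y ∧ wld (fun z => ∃ _h : z < q, K z) (Fs e s y) m) φ v
termination_by q

/-- the world described by the numbers, cut at `y` -/
def W (e s y : ℕ) (m : ℕ) : Prop := m ≤ y ∧ wld K (Fs e s y) m

theorem K_bit (j e : ℕ) : K (P 0 (P j e)) ↔ e.testBit j = true := by
  rw [K]
  constructor
  · rintro (⟨j', e', h, h2⟩ | ⟨n, φ, v, e', s, y, h, -⟩)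
    · have h3 := P_inj (P_inj h).2
      rw [h3.1, h3.2]
      exact h2
    · exact absurd h.symm (Q_ne _ _ _ _ _ _)
  · intro h
    exact Or.inl ⟨j, e, rfl, h⟩

theorem K_Q {n : ℕ} (φ : FR n) (v : Fin n → ℕ) (e s y : ℕ) :
    K (Q φ v e s y) ↔ evF (W e s y) φ v := by
  have hW : (fun m => m ≤ y ∧ wld (fun z => ∃ _h : z < Q φ v e s y, K z) (Fs e s y) m) =
      W e s y := by
    funext m
    apply propext
    simp only [W]
    refine and_congr_right fun hm => ?_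
    simp only [wld]
    refine or_congr (and_congr_right fun _ => ?_) Iff.rfl
    have h1 := lt_Q φ v e s y
    exact ⟨fun h => h.choose_spec, fun h => ⟨by omega, h⟩⟩
  rw [K]
  constructor
  · rintro (⟨j', e', h, -⟩ | ⟨n', φ', v', e', s', y', h, h2⟩)
    · exact absurd h (Q_ne _ _ _ _ _ _)
    · obtain ⟨h3, rfl, rfl, rfl⟩ := Q_inj h
      cases h3
      rw [hW] at h2
      exact h2
  · intro h
    refine Or.inr ⟨n, φ, v, e, s, y, rfl, ?_⟩
    rw [hW]
    exact h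

end Pool.Agent.V8H57.BX
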