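import Pool.Agent.TH686.BA.Nat

/-!
# Bounded arithmetic with a predicate

Terms, structures for the language `0, S, +, ·, ⌊x/2⌋, |x|, #, ≤` and Buss's axioms `BASIC` are
those of `Pool.Agent.TH686.BA.Defs`. Here the language is extended by a unary predicate symbol:
structures, bounded formulas, the classes `Σᵇᵢ` and `Πᵇᵢ`, the standard structure `(ℕ, A)`, and
the models of the theories `T^i_2` in the extended language.
-/

set_option autoImplicit false

namespace Pool.Agent.V8H57.BX

open Pool.Agent.TH686.BA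

/-- Structures for the language with the predicate. -/
structure StrR extends Str where
  rel : carrier → Prop

/-- Bounded formulas with free variables `0, ..., n - 1`; in `ex t φ` (some `y ≤ t` satisfies `φ`)
and `all t φ` (every `y ≤ t` satisfies `φ`) the bound variable `y` is the variable `0` of `φ` and
the variable `i` of `t` is the variable `i + 1` of `φ`. -/
inductive FR : ℕ → Type
  | eq {n : ℕ} (s t : Tm n) : FR n
  | le {n : ℕ} (s t : Tm n) : FR n
  | rel {n : ℕ} (t : Tm n) : FR n
  | not {n : ℕ} (φ : FR n) : FR n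
  | and {n : ℕ} (φ ψ : FR n) : FR n
  | or {n : ℕ} (φ ψ : FR n) : FR n
  | all {n : ℕ} (t : Tm n) (φ : FR (n + 1)) : FR n
  | ex {n : ℕ} (t : Tm n) (φ : FR (n + 1)) : FR n

/-- Truth of a bounded formula. -/
def FR.eval (M : StrR) : ∀ {n : ℕ}, (Fin n → M.carrier) → FR n → Prop
  | _, v, .eq s t => s.eval M.toStr v = t.eval M.toStr v
  | _, v, .le s t => M.le (s.eval M.toStr v) (t.eval M.toStr v)
  | _, v, .rel t => M.rel (t.eval M.toStr v)
  | _, v, .not φ => ¬ φ.eval M v
  | _, v, .and φ ψ => φ.eval M v ∧ ψ.eval M v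
  | _, v, .or φ ψ => φ.eval M v ∨ ψ.eval M v
  | _, v, .all t φ => ∀ y, M.le y (t.eval M.toStr v) →
      φ.eval M (Fin.cons (α := fun _ => M.carrier) y v)
  | _, v, .ex t φ => ∃ y, M.le y (t.eval M.toStr v) ∧
      φ.eval M (Fin.cons (α := fun _ => M.carrier) y v)

/-- `Lv true i φ` says that `φ` is a `Σᵇᵢ`-formula and `Lv false i φ` that it is a `Πᵇᵢ`-formula.
For `i = 0` both mean that all quantifiers are sharply bounded; at level `i + 1` the `Σ` class
contains both classes of level `i` and is closed under conjunction, disjunction, sharply bounded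
quantifiers and bounded existential quantifiers; dually for the `Π` class; negation exchanges the
two classes. -/
inductive Lv : Bool → ℕ → ∀ {n : ℕ}, FR n → Prop
  | eq {b : Bool} {i n : ℕ} (s t : Tm n) : Lv b i (FR.eq s t)
  | le {b : Bool} {i n : ℕ} (s t : Tm n) : Lv b i (FR.le s t)
  | rel {b : Bool} {i n : ℕ} (t : Tm n) : Lv b i (FR.rel t)
  | not {b : Bool} {i n : ℕ} {φ : FR n} : Lv (!b) i φ → Lv b i (FR.not φ)
  | and {b : Bool} {i n : ℕ} {φ ψ : FR n} : Lv b i φ → Lv b i ψ → Lv b i (FR.and φ ψ)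
  | or {b : Bool} {i n : ℕ} {φ ψ : FR n} : Lv b i φ → Lv b i ψ → Lv b i (FR.or φ ψ)
  | sall {b : Bool} {i n : ℕ} (t : Tm n) {φ : FR (n + 1)} : Lv b i φ →
      Lv b i (FR.all (Tm.len t) φ)
  | sex {b : Bool} {i n : ℕ} (t : Tm n) {φ : FR (n + 1)} : Lv b i φ →
      Lv b i (FR.ex (Tm.len t) φ)
  | all {i n : ℕ} (t : Tm n) {φ : FR (n + 1)} : Lv false (i + 1) φ →
      Lv false (i + 1) (FR.all t φ)
  | ex {i n : ℕ} (t : Tm n) {φ : FR (n + 1)} : Lv true (i + 1) φ →
      Lv true (i + 1) (FR.ex t φ)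
  | up {b c : Bool} {i n : ℕ} {φ : FR n} : Lv b i φ → Lv c (i + 1) φ

/-- The induction axiom for `φ` (variable `0`; the other variables are parameters) holds. -/
def StrR.Ind (M : StrR) {n : ℕ} (φ : FR (n + 1)) : Prop :=
  ∀ v : Fin n → M.carrier, φ.eval M (Fin.cons (α := fun _ => M.carrier) M.zero v) →
    (∀ x, φ.eval M (Fin.cons (α := fun _ => M.carrier) x v) →
      φ.eval M (Fin.cons (α := fun _ => M.carrier) (M.succ x) v)) →
    ∀ x, φ.eval M (Fin.cons (α := fun _ => M.carrier) x v)

/-- `M` is a model of `T^i_2` in the language with the predicate: `BASIC` and induction for all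
`Σᵇᵢ`-formulas (with the predicate). -/
structure StrR.IsModelT (M : StrR) (i : ℕ) : Prop where
  basic : M.toStr.Basic
  ind : ∀ (n : ℕ) (φ : FR (n + 1)), Lv true i φ → M.Ind φ

/-- The structure `(ℕ, A)`. -/
def natR (A : ℕ → Prop) : StrR := { natStr with rel := A }

/-- The universal closure of `φ` is true in `(ℕ, A)`. -/
def Tr (A : ℕ → Prop) {n : ℕ} (φ : FR n) : Prop :=
  ∀ v : Fin n → ℕ, φ.eval (natR A) v

end Pool.Agent.V8H57.BX
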