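import Pool.Agent.V8H57.BX.Code

/-!
# Formulas about the answers
-/

set_option autoImplicit false

namespace Pool.Agent.V8H57.BX

open Pool.Agent.TH686.BA

/-- the term `2` -/
def two {k : ℕ} : Tm k := .succ (.succ .zero)

/-- numerals -/
def nm {k : ℕ} : ℕ → Tm k
  | 0 => .zero
  | c + 1 => .succ (nm c)

/-- pairing term -/
def PT {k : ℕ} (a b : Tm k) : Tm k := .add (.mul (.add a b) (.add a b)) a

/-- list term -/
def cdT {k : ℕ} : List (Tm k) → Tm k
  | [] => .zero
  | a :: l => PT a (cdT l)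

/-- numerals of a structure -/
def nmM (M : Str) : ℕ → M.carrier
  | 0 => M.zero
  | c + 1 => M.succ (nmM M c)

/-- pairing in a structure -/
def PM (M : Str) (a b : M.carrier) : M.carrier := M.add (M.mul (M.add a b) (M.add a b)) a

/-- codes of lists in a structure -/
def cdM (M : Str) : List M.carrier → M.carrier
  | [] => M.zero
  | a :: l => PM M a (cdM M l)

/-- two in a structure -/
def twoM (M : Str) : M.carrier := M.succ (M.succ M.zero)

theorem eval_two (M : Str) {k : ℕ} (w : Fin k → M.carrier) : (two : Tm k).eval M w = twoM M := rfl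

theorem eval_nm (M : Str) {k : ℕ} (w : Fin k → M.carrier) (c : ℕ) :
    (nm c : Tm k).eval M w = nmM M c := by
  induction c with
  | zero => rfl
  | succ c ih => simp only [nm, Tm.eval, nmM, ih]

theorem eval_cdT (M : Str) {k : ℕ} (w : Fin k → M.carrier) (l : List (Tm k)) :
    (cdT l).eval M w = cdM M (l.map fun t => t.eval M w) := by
  induction l with
  | nil => rfl
  | cons a l ih => simp only [cdT, PT, Tm.eval, List.map_cons, cdM, PM, ih]

/-- implication -/
def imp {k : ℕ} (φ ψ : FR k) : FR k := .or (.not φ) ψ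

/-- equivalence -/
def ifff {k : ℕ} (φ ψ : FR k) : FR k := .and (imp φ ψ) (imp ψ φ)

theorem eval_imp (M : StrR) {k : ℕ} (φ ψ : FR k) (w : Fin k → M.carrier) :
    (imp φ ψ).eval M w ↔ (φ.eval M w → ψ.eval M w) := by
  simp only [imp, FR.eval]
  tauto

theorem eval_ifff (M : StrR) {k : ℕ} (φ ψ : FR k) (w : Fin k → M.carrier) :
    (ifff φ ψ).eval M w ↔ (φ.eval M w ↔ ψ.eval M w) := by
  simp only [ifff, FR.eval, eval_imp]
  tauto

/-- sharply bounded formulas -/
def Opn {k : ℕ} (φ : FR k) : Prop := ∀ (b : Bool) (i : ℕ), Lv b i φ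

theorem Opn.eq {k : ℕ} (s t : Tm k) : Opn (FR.eq s t) := fun _ _ => .eq s t
theorem Opn.le {k : ℕ} (s t : Tm k) : Opn (FR.le s t) := fun _ _ => .le s t
theorem Opn.rel {k : ℕ} (t : Tm k) : Opn (FR.rel t) := fun _ _ => .rel t
theorem Opn.not {k : ℕ} {φ : FR k} (h : Opn φ) : Opn (FR.not φ) := fun _ _ => .not (h _ _)
theorem Opn.and {k : ℕ} {φ ψ : FR k} (h : Opn φ) (h' : Opn ψ) : Opn (FR.and φ ψ) :=
  fun _ _ => .and (h _ _) (h' _ _)
theorem Opn.or {k : ℕ} {φ ψ : FR k} (h : Opn φ) (h' : Opn ψ) : Opn (FR.or φ ψ) :=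
  fun _ _ => .or (h _ _) (h' _ _)
theorem Opn.imp {k : ℕ} {φ ψ : FR k} (h : Opn φ) (h' : Opn ψ) : Opn (imp φ ψ) := h.not.or h'
theorem Opn.ifff {k : ℕ} {φ ψ : FR k} (h : Opn φ) (h' : Opn ψ) : Opn (ifff φ ψ) :=
  (h.imp h').and (h'.imp h)
theorem Opn.sall {k : ℕ} (t : Tm k) {φ : FR (k + 1)} (h : Opn φ) : Opn (FR.all (Tm.len t) φ) :=
  fun _ _ => .sall t (h _ _)
theorem Opn.sex {k : ℕ} (t : Tm k) {φ : FR (k + 1)} (h : Opn φ) : Opn (FR.ex (Tm.len t) φ) :=
  fun _ _ => .sex t (h _ _)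

/-- the formula: `φ` holds for the arguments in the world described by `e`, `s`, `y` -/
def D {n k : ℕ} (φ : FR n) (args : Fin n → Tm k) (e s y : Tm k) : FR k :=
  .rel (.mul two (cdT (nm (cc φ) :: e :: s :: y :: List.ofFn args)))

/-- the formula: digit `j` of `e` is one -/
def B {k : ℕ} (j e : Tm k) : FR k := .rel (.mul two (PT .zero (PT j e)))

/-- the predicate at odd numbers -/
def R1 {k : ℕ} (j : Tm k) : FR k := .rel (.succ (.mul two j))

/-- `D` in a structure -/
def DM (M : StrR) {n : ℕ} (φ : FR n) (v : Fin n → M.carrier) (e s y : M.carrier) : Prop :=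
  M.rel (M.mul (twoM M.toStr) (cdM M.toStr (nmM M.toStr (cc φ) :: e :: s :: y :: List.ofFn v)))

/-- `B` in a structure -/
def BM (M : StrR) (j e : M.carrier) : Prop :=
  M.rel (M.mul (twoM M.toStr) (PM M.toStr M.zero (PM M.toStr j e)))

/-- `R1` in a structure -/
def RM (M : StrR) (j : M.carrier) : Prop := M.rel (M.succ (M.mul (twoM M.toStr) j))

theorem eval_D (M : StrR) {n k : ℕ} (φ : FR n) (args : Fin n → Tm k) (e s y : Tm k)
    (w : Fin k → M.carrier) :
    (D φ args e s y).eval M w ↔ DM M φ (fun i => (args i).eval M.toStr w) (e.eval M.toStr w)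
      (s.eval M.toStr w) (y.eval M.toStr w) := by
  simp only [D, FR.eval, Tm.eval, DM, eval_two, eval_cdT, List.map_cons, eval_nm, List.map_ofFn]
  rfl

theorem eval_B (M : StrR) {k : ℕ} (j e : Tm k) (w : Fin k → M.carrier) :
    (B j e).eval M w ↔ BM M (j.eval M.toStr w) (e.eval M.toStr w) := by
  simp only [B, FR.eval, Tm.eval, BM, eval_two, PT, PM]

theorem eval_R1 (M : StrR) {k : ℕ} (j : Tm k) (w : Fin k → M.carrier) :
    (R1 j).eval M w ↔ RM M (j.eval M.toStr w) := by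
  simp only [R1, FR.eval, Tm.eval, RM, eval_two]

theorem opn_D {n k : ℕ} (φ : FR n) (args : Fin n → Tm k) (e s y : Tm k) :
    Opn (D φ args e s y) := Opn.rel _

theorem opn_B {k : ℕ} (j e : Tm k) : Opn (B j e) := Opn.rel _

theorem opn_R1 {k : ℕ} (j : Tm k) : Opn (R1 j) := Opn.rel _

/-- the formula: `n` is in the finite set described by `e`, `s`, `y` -/
def MB {k : ℕ} (n e s y : Tm k) : FR k :=
  .or (.and (.le (.succ n) (.len y)) (B n e)) (.and (.not (.eq s .zero)) (.eq n s))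

theorem opn_MB {k : ℕ} (n e s y : Tm k) : Opn (MB n e s y) :=
  ((Opn.le _ _).and (opn_B _ _)).or ((Opn.eq _ _).not.and (Opn.eq _ _))

/-- `MB` in a structure -/
def MM (M : StrR) (n e s y : M.carrier) : Prop :=
  (M.le (M.succ n) (M.len y) ∧ BM M n e) ∨ (s ≠ M.zero ∧ n = s)

theorem eval_MB (M : StrR) {k : ℕ} (n e s y : Tm k) (w : Fin k → M.carrier) :
    (MB n e s y).eval M w ↔ MM M (n.eval M.toStr w) (e.eval M.toStr w)
      (s.eval M.toStr w) (y.eval M.toStr w) := by
  simp only [MB, FR.eval, Tm.eval, MM, eval_B]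

/-- the formula: the digits of `e` describe the set below `|y|` (context: `e`, `y` are terms) -/
def Sm {k : ℕ} (e y : Tm k) : FR k :=
  .all (.len y) (imp (.le (.succ (.var 0)) (sub (fun i => .var i.succ) (.len y)))
    (ifff (B (.var 0) (sub (fun i => .var i.succ) e)) (R1 (.var 0))))

theorem opn_Sm {k : ℕ} (e y : Tm k) : Opn (Sm e y) :=
  Opn.sall _ ((Opn.le _ _).imp ((opn_B _ _).ifff (opn_R1 _)))

/-- `Sm` in a structure -/
def SmM (M : StrR) (e y : M.carrier) : Prop :=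
  ∀ j, M.le j (M.len y) → M.le (M.succ j) (M.len y) → (BM M j e ↔ RM M j)

theorem eval_Sm (M : StrR) {k : ℕ} (e y : Tm k) (w : Fin k → M.carrier) :
    (Sm e y).eval M w ↔ SmM M (e.eval M.toStr w) (y.eval M.toStr w) := by
  simp only [Sm, FR.eval, SmM, eval_imp, eval_ifff, eval_B, eval_R1, eval_sub, Tm.eval,
    Fin.cons_zero, Fin.cons_succ]

end Pool.Agent.V8H57.BX
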