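import Pool.Agent.V8H57.BX.Form

/-!
# The standard structure
-/

set_option autoImplicit false

namespace Pool.Agent.V8H57.BX

open Pool.Agent.TH686.BA

/-- lacunary sets -/
def Lac (S : ℕ → Prop) : Prop := ¬ S 0 ∧ ∀ s s', S s → S s' → s < s' → s < s'.size

/-- the structure given by the hidden set -/
abbrev NS (S : ℕ → Prop) : StrR := natR (wld K S)

theorem nmM_nat (S : ℕ → Prop) (c : ℕ) : nmM (NS S).toStr c = c := by
  induction c with
  | zero => rfl
  | succ c ih => exact congrArg Nat.succ ih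

theorem cdM_nat (S : ℕ → Prop) (l : List ℕ) : cdM (NS S).toStr l = cdl l := by
  induction l with
  | nil => rfl
  | cons a l ih => exact congrArg (P a) ih

theorem DM_nat (S : ℕ → Prop) {n : ℕ} (φ : FR n) (v : Fin n → ℕ) (e s y : ℕ) :
    DM (NS S) φ v e s y ↔ evF (W e s y) φ v := by
  rw [← K_Q φ v e s y, ← wld_even K S]
  have h1 : cdM (NS S).toStr (nmM (NS S).toStr (cc φ) :: e :: s :: y :: List.ofFn v) =
      Q φ v e s y := by
    rw [nmM_nat]
    exact cdM_nat S _
  exact iff_of_eq (congrArg (fun z : ℕ => wld K S (2 * z)) h1)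

theorem BM_nat (S : ℕ → Prop) (j e : ℕ) : BM (NS S) j e ↔ e.testBit j = true := by
  rw [← K_bit j e, ← wld_even K S]
  exact Iff.rfl

theorem RM_nat (S : ℕ → Prop) (j : ℕ) : RM (NS S) j ↔ S j := wld_odd K S j

theorem MM_nat (S : ℕ → Prop) (n e s y : ℕ) : MM (NS S) n e s y ↔ Fs e s y n := by
  exact or_congr (and_congr_right fun _ => BM_nat S n e) Iff.rfl

theorem SmM_nat (S : ℕ → Prop) (e y : ℕ) :
    SmM (NS S) e y ↔ ∀ j, j < y.size → (e.testBit j = true ↔ S j) := by
  constructor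
  · intro h j hj
    exact ((BM_nat S j e).symm.trans (h j (show j ≤ y.size from hj.le)
      (show j + 1 ≤ y.size from hj))).trans (RM_nat S j)
  · intro h j _ hj
    exact (BM_nat S j e).trans ((h j hj).trans (RM_nat S j).symm)

theorem complete {S : ℕ → Prop} {e s y : ℕ} (h : ∀ n ≤ y, (S n ↔ Fs e s y n)) {n : ℕ}
    (φ : FR n) (v : Fin n → ℕ) (hy : ev (bd φ) v ≤ y) :
    evF (wld K S) φ v ↔ evF (W e s y) φ v := by
  apply evF_congr φ v y hy
  intro m hm
  simp only [W, wld]
  constructor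
  · intro h1
    refine ⟨hm, h1.imp id fun h2 => ⟨h2.1, (h _ (by omega)).1 h2.2⟩⟩
  · rintro ⟨-, h1⟩
    exact h1.imp id fun h2 => ⟨h2.1, (h _ (by omega)).2 h2.2⟩

theorem fs_of_some {S : ℕ → Prop} (hS : Lac S) {e s y : ℕ}
    (h : ∀ j, j < y.size → (e.testBit j = true ↔ S j)) (hs : S s) (h1 : y.size ≤ s) (h2 : s ≤ y)
    (n : ℕ) (hn : n ≤ y) : S n ↔ Fs e s y n := by
  have hs0 : s ≠ 0 := by
    rintro rfl
    exact hS.1 hs
  rw [Fs]
  by_cases hn2 : n < y.size
  · rw [← h n hn2]
    constructor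
    · intro h3
      exact Or.inl ⟨hn2, h3⟩
    · rintro (h3 | h3)
      · exact h3.2
      · omega
  · constructor
    · intro h3
      right
      refine ⟨hs0, ?_⟩
      rcases lt_trichotomy n s with h4 | h4 | h4
      · have h5 := hS.2 n s h3 hs h4
        have h6 := Nat.size_le_size h2
        omega
      · exact h4
      · have h5 := hS.2 s n hs h3 h4
        have h6 := Nat.size_le_size hn
        omega
    · rintro (h3 | h3)
      · omega
      · rw [h3.2]
        exact hs

theorem fs_of_none {S : ℕ → Prop} {e y : ℕ}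
    (h : ∀ j, j < y.size → (e.testBit j = true ↔ S j))
    (n : ℕ) (h1 : S n → n < y.size) : S n ↔ Fs e 0 y n := by
  rw [Fs]
  constructor
  · intro h3
    have h4 := h1 h3
    exact Or.inl ⟨h4, (h n h4).2 h3⟩
  · rintro (h3 | h3)
    · exact (h n h3.1).1 h3.2
    · exact absurd rfl h3.1

/-- a number with given digits -/
theorem exists_digits (S : ℕ → Prop) (k : ℕ) :
    ∃ e < 2 ^ k, ∀ j, j < k → (e.testBit j = true ↔ S j) := by
  classical
  refine ⟨Nat.ofBits (fun i : Fin k => decide (S i)), Nat.ofBits_lt_two_pow _, ?_⟩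
  intro j hj
  rw [Nat.testBit_ofBits_lt _ _ hj, decide_eq_true_eq]

theorem exists_small (S : ℕ → Prop) (y : ℕ) :
    ∃ e ≤ y + y, ∀ j, j < y.size → (e.testBit j = true ↔ S j) := by
  obtain ⟨e, h1, h2⟩ := exists_digits S y.size
  refine ⟨e, ?_, h2⟩
  rcases Nat.eq_zero_or_pos y with rfl | hy
  · simp at h1
    omega
  · have h3 : 2 ^ (y.size - 1) ≤ y := Nat.lt_size.1 (by
      have := Nat.size_pos.2 hy
      omega)
    have h4 : 2 ^ y.size = 2 * 2 ^ (y.size - 1) := by
      have := Nat.size_pos.2 hy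
      obtain ⟨k, hk⟩ : ∃ k, y.size = k + 1 := ⟨y.size - 1, by omega⟩
      rw [hk, Nat.add_sub_cancel, pow_succ]
      ring
    omega

end Pool.Agent.V8H57.BX
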