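import Pool.Agent.V8H57.BX.Cert
import Pool.Agent.V8H57.BX.NatW

/-!
# The hidden set
-/

set_option autoImplicit false

namespace Pool.Agent.V8H57.BX

open Pool.Agent.TH686.BA

/-- the set has an element between `|x|` and `x` -/
def Hit (S : ℕ → Prop) (x : ℕ) : Prop := ∃ n, n ≤ x ∧ x.size ≤ n ∧ S n

/-- the requirement for a formula -/
def Req (χ : FR 1) (S : ℕ → Prop) : Prop :=
  ∃ x : ℕ, ¬ (evF (wld K S) χ (fun _ => x) ↔ ¬ Hit S x)

theorem exists_large (c b : ℕ) : ∃ n, b ≤ n ∧ (n + 1) ^ c < 2 ^ n := by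
  have h2 := tendsto_pow_const_div_const_pow_of_one_lt c (r := (2 : ℝ)) (by norm_num)
  have h3 := (h2.eventually (gt_mem_nhds (show (0 : ℝ) < 1 / 2 by positivity))).and
    (Filter.eventually_ge_atTop (b + 1))
  obtain ⟨n, h4, h5⟩ := h3.exists
  obtain ⟨m, rfl⟩ : ∃ m, n = m + 1 := ⟨n - 1, by omega⟩
  refine ⟨m, by omega, ?_⟩
  rw [div_lt_div_iff₀ (by positivity) (by positivity), pow_succ] at h4
  have h7 : (((m + 1) ^ c : ℕ) : ℝ) < 2 ^ m := by
    push_cast at h4 ⊢
    linarith
  exact_mod_cast h7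

theorem stage (F : Finset ℕ) (b : ℕ) (χ : FR 1) (hχ : Lv true 1 χ) (hF : ∀ s ∈ F, s ≤ b) :
    ∃ (F' : Finset ℕ) (b' : ℕ), F ⊆ F' ∧ b ≤ b' ∧ (∀ s ∈ F', s ≤ b') ∧
      (∀ s ∈ F', s ∉ F → b < s.size) ∧
      (∀ s ∈ F', ∀ s' ∈ F', s ∉ F → s' ∉ F → s = s') ∧
      ∀ S : ℕ → Prop, (∀ s ∈ F', S s) → (∀ s, S s → s ∉ F' → b' < s.size) → Req χ S := by
  classical
  obtain ⟨c, hc⟩ := (cert_lv hχ).2 rfl
  obtain ⟨n, hn, hn2⟩ := exists_large c (b + 1)
  -- the input
  obtain ⟨x, hx⟩ : ∃ x, x = 2 ^ (n + 1) - 1 := ⟨_, rfl⟩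
  have hpos : 0 < 2 ^ n := by positivity
  have hx2 : 2 ^ (n + 1) = 2 * 2 ^ n := by rw [pow_succ]; ring
  have hxs : x.size = n + 1 := by
    apply le_antisymm
    · exact Nat.size_le.2 (by omega)
    · exact Nat.lt_size.2 (by omega)
  have hnx : n + 1 < x + 1 := by
    have h1 : n < 2 ^ n := Nat.lt_two_pow_self
    omega
  by_cases hcase : evF (wld K (fun m => m ∈ F)) χ (fun _ => x)
  · obtain ⟨C, hC1, hC2⟩ := hc (n + 1) (by omega) (fun _ => x) (fun _ => hxs.le) _
      (by simpa using hcase)
    obtain ⟨m, hm1, hm2⟩ : ∃ m ∈ Finset.Ico (2 ^ n) (2 ^ (n + 1)), 2 * m + 1 ∉ C := by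
      by_contra hcon
      push Not at hcon
      have h1 : (Finset.Ico (2 ^ n) (2 ^ (n + 1))).image (fun m => 2 * m + 1) ⊆ C := by
        intro m hm
        obtain ⟨m', h2, rfl⟩ := Finset.mem_image.1 hm
        exact hcon m' h2
      have h2 := Finset.card_le_card h1
      rw [Finset.card_image_of_injective _ (fun a b h => by
        have h3 : 2 * a + 1 = 2 * b + 1 := h
        omega), Nat.card_Ico] at h2
      omega
    rw [Finset.mem_Ico] at hm1
    have hms : m.size = n + 1 := by
      apply le_antisymm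
      · exact Nat.size_le.2 hm1.2
      · exact Nat.lt_size.2 hm1.1
    refine ⟨insert m F, b + m + x + C.sup id, Finset.subset_insert _ _, by omega, ?_, ?_, ?_,
      ?_⟩
    · intro s hs
      rcases Finset.mem_insert.1 hs with rfl | hs
      · omega
      · have := hF s hs
        omega
    · intro s hs hsF
      rcases Finset.mem_insert.1 hs with rfl | hs
      · omega
      · exact absurd hs hsF
    · intro s hs s' hs' h1 h2
      have h3 : s = m := (Finset.mem_insert.1 hs).resolve_right h1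
      have h4 : s' = m := (Finset.mem_insert.1 hs').resolve_right h2
      rw [h3, h4]
    · intro S hS1 hS2
      refine ⟨x, fun hiff => ?_⟩
      have h1 : evF (wld K S) χ (fun _ => x) := by
        have h2 := hC2 (wld K S) fun q hq => by
          refine or_congr Iff.rfl (and_congr_right fun hodd => ?_)
          constructor
          · intro hqS
            by_contra hqF
            by_cases h3 : q / 2 ∈ insert m F
            · rcases Finset.mem_insert.1 h3 with h4 | h4
              · apply hm2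
                rw [← h4]
                have h5 : 2 * (q / 2) + 1 = q := by omega
                rw [h5]
                exact hq
              · exact hqF h4
            · have h4 := hS2 _ hqS h3
              have h5 : q ≤ C.sup id := Finset.le_sup (f := id) hq
              have h6 := size_le_self' (q / 2)
              omega
          · intro h
            exact hS1 _ (Finset.mem_insert_of_mem h)
        simpa using h2
      refine hiff.1 h1 ⟨m, by omega, ?_, hS1 m (Finset.mem_insert_self _ _)⟩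
      rw [hxs]
      have h3 : n < 2 ^ n := Nat.lt_two_pow_self
      omega
  · refine ⟨F, b + x + ev (bd χ) (fun _ => x), Finset.Subset.refl _, by omega, ?_, ?_, ?_, ?_⟩
    · intro s hs
      have := hF s hs
      omega
    · intro s hs hsF
      exact absurd hs hsF
    · intro s hs s' hs' h1 h2
      exact absurd hs h1
    · intro S hS1 hS2
      refine ⟨x, fun hiff => ?_⟩
      have hno : ¬ Hit S x := by
        rintro ⟨m, h1, h2, h3⟩
        by_cases h4 : m ∈ F
        · have := hF m h4
          omega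
        · have h5 := hS2 m h3 h4
          have h6 := size_le_self' m
          omega
      apply hcase
      refine (evF_congr χ _ (ev (bd χ) (fun _ => x)) le_rfl fun q hq => ?_).1 (hiff.2 hno)
      refine or_congr Iff.rfl (and_congr_right fun hodd => ?_)
      constructor
      · intro h1
        by_contra h2
        have h3 := hS2 _ h1 h2
        have h4 := size_le_self' (q / 2)
        omega
      · exact fun h => hS1 _ h

/-- the states of the construction -/
structure Sta : Type where
  F : Finset ℕ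
  b : ℕ
  h : ∀ s ∈ F, s ≤ b

open Classical in
/-- one step of the construction -/
noncomputable def nextSta (χ : FR 1) (s : Sta) : Sta :=
  if hχ : Lv true 1 χ then
    ⟨(stage s.F s.b χ hχ s.h).choose, (stage s.F s.b χ hχ s.h).choose_spec.choose,
      (stage s.F s.b χ hχ s.h).choose_spec.choose_spec.2.2.1⟩
  else s

theorem nextSta_spec (χ : FR 1) (s : Sta) :
    s.F ⊆ (nextSta χ s).F ∧ s.b ≤ (nextSta χ s).b ∧
      (∀ t ∈ (nextSta χ s).F, t ∉ s.F → s.b < t.size) ∧
      (∀ t ∈ (nextSta χ s).F, ∀ t' ∈ (nextSta χ s).F, t ∉ s.F → t' ∉ s.F → t = t') ∧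
      (Lv true 1 χ → ∀ S : ℕ → Prop, (∀ t ∈ (nextSta χ s).F, S t) →
        (∀ t, S t → t ∉ (nextSta χ s).F → (nextSta χ s).b < t.size) → Req χ S) := by
  by_cases hχ : Lv true 1 χ
  · have h := (stage s.F s.b χ hχ s.h).choose_spec.choose_spec
    rw [nextSta, dif_pos hχ]
    exact ⟨h.1, h.2.1, h.2.2.2.1, h.2.2.2.2.1, fun _ => h.2.2.2.2.2⟩
  · rw [nextSta, dif_neg hχ]
    exact ⟨Finset.Subset.refl _, le_rfl, fun t h1 h2 => absurd h1 h2,
      fun t h1 t' _ h3 _ => absurd h1 h3, fun h => absurd h hχ⟩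

/-- The hidden set exists. -/
theorem exists_hidden : ∃ S : ℕ → Prop, Lac S ∧ ∀ χ : FR 1, Lv true 1 χ → Req χ S := by
  classical
  have hne : Nonempty (FR 1) := ⟨.eq .zero .zero⟩
  obtain ⟨g, hg⟩ := exists_surjective_nat (FR 1)
  let st : ℕ → Sta := fun t => Nat.rec ⟨∅, 0, by simp⟩ (fun t s => nextSta (g t) s) t
  have hst : ∀ t, st (t + 1) = nextSta (g t) (st t) := fun t => rfl
  have hst0 : (st 0).F = ∅ := rfl
  have hsp := fun t => nextSta_spec (g t) (st t)
  simp only [← hst] at hsp
  have hmono : ∀ t u, t ≤ u → (st t).F ⊆ (st u).F ∧ (st t).b ≤ (st u).b := by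
    intro t u htu
    induction u, htu using Nat.le_induction with
    | base => exact ⟨Finset.Subset.refl _, le_rfl⟩
    | succ u _ ih => exact ⟨ih.1.trans (hsp u).1, ih.2.trans (hsp u).2.1⟩
  -- the stage at which a member appears
  have happ : ∀ s, (∃ t, s ∈ (st t).F) → ∃ t, s ∈ (st (t + 1)).F ∧ s ∉ (st t).F := by
    intro s hs
    have h1 := Nat.find_spec hs
    have h0 : Nat.find hs ≠ 0 := by
      intro h0
      rw [h0, hst0] at h1
      simp at h1
    refine ⟨Nat.find hs - 1, ?_, ?_⟩
    · rw [Nat.sub_add_cancel (Nat.one_le_iff_ne_zero.2 h0)]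
      exact h1
    · exact Nat.find_min hs (by omega)
  refine ⟨fun s => ∃ t, s ∈ (st t).F, ⟨?_, ?_⟩, ?_⟩
  · intro h
    obtain ⟨t, h1, h3⟩ := happ 0 h
    have := (hsp t).2.2.1 0 h1 h3
    simp at this
  · intro s s' hs hs' hlt
    obtain ⟨t, h1, h3⟩ := happ s hs
    obtain ⟨t', h1', h3'⟩ := happ s' hs'
    have h4 := (hsp t').2.2.1 s' h1' h3'
    by_cases hc : s ∈ (st t').F
    · exact lt_of_le_of_lt ((st t').h s hc) h4
    · exfalso
      have htt : t' ≤ t := by
        by_contra hcon
        exact hc ((hmono (t + 1) t' (by omega)).1 h1)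
      rcases Nat.eq_or_lt_of_le htt with heq | hlt'
      · subst heq
        have := (hsp t').2.2.2.1 s h1 s' h1' h3 h3'
        omega
      · have h5 := (st t).h s' ((hmono (t' + 1) t (by omega)).1 h1')
        have h6 := (hsp t).2.2.1 s h1 h3
        have h7 := size_le_self' s
        omega
  · intro χ hχ
    obtain ⟨t, ht⟩ := hg χ
    have h4 := (hsp t).2.2.2.2
    rw [ht] at h4
    apply h4 hχ
    · intro s hs
      exact ⟨t + 1, hs⟩
    · intro s hs hsn
      obtain ⟨u, h5, h6⟩ := happ s hs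
      have htu : t + 1 ≤ u := by
        by_contra hcon
        exact hsn ((hmono (u + 1) (t + 1) (by omega)).1 h5)
      exact lt_of_le_of_lt (hmono _ _ htu).2 ((hsp u).2.2.1 s h5 h6)

end Pool.Agent.V8H57.BX
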