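import Pool.Agent.V8H57.BX.Basic

/-!
# Induction
-/

set_option autoImplicit false

namespace Pool.Agent.V8H57.BX

open Pool.Agent.TH686.BA

variable {M : StrR} {S : ℕ → Prop}

/-- arguments -/
def c4 {n : ℕ} (t : Tm (n + 4)) : Fin (n + 1) → Tm (n + 4) :=
  Fin.cons (α := fun _ => Tm (n + 4)) t a4

/-- arguments -/
def c5 {n : ℕ} (t : Tm (n + 5)) : Fin (n + 1) → Tm (n + 5) :=
  Fin.cons (α := fun _ => Tm (n + 5)) t (fun i => .var i.succ.succ.succ.succ.succ)

/-- the variable 4 -/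
def v4 {n : ℕ} : Tm (n + 5) := .var (Fin.succ (Fin.succ (Fin.succ (Fin.succ 0))))

theorem eval_c4 (M : Str) {n : ℕ} (t : Tm (n + 4)) (w : Fin (n + 4) → M.carrier) :
    (fun i => (c4 (n := n) t i).eval M w) =
      Fin.cons (α := fun _ => M.carrier) (t.eval M w) (fun i => w i.succ.succ.succ.succ) := by
  funext i
  refine Fin.cases ?_ (fun j => ?_) i
  · rfl
  · rfl

theorem eval_c5 (M : Str) {n : ℕ} (t : Tm (n + 5)) (w : Fin (n + 5) → M.carrier) :
    (fun i => (c5 (n := n) t i).eval M w) =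
      Fin.cons (α := fun _ => M.carrier) (t.eval M w) (fun i => w i.succ.succ.succ.succ.succ) := by
  funext i
  refine Fin.cases ?_ (fun j => ?_) i
  · rfl
  · rfl

theorem exists_comp (hM : Sat1 M (wld K S)) (hS : Lac S) (y : M.carrier) :
    ∃ e s, ∀ m, M.le m y → (RM M m ↔ MM M m e s y) := by
  obtain ⟨e, he⟩ := exists_sm hM y
  by_cases h : ∃ m, M.le m y ∧ M.le (M.len y) m ∧ RM M m
  · obtain ⟨m, h1, h2, h3⟩ := h
    exact ⟨e, m, comp_some hM hS e m _ he h3 h2 h1⟩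
  · exact ⟨e, M.zero, comp_none hM e _ he fun m h1 h2 h3 => h ⟨m, h1, h2, h3⟩⟩

theorem term_mono (hM : Sat1 M (wld K S)) {n : ℕ} (u : Tm (n + 1)) (v : Fin n → M.carrier)
    (x a : M.carrier) (h : M.le x a) :
    M.le (u.eval M.toStr (Fin.cons (α := fun _ => M.carrier) x v))
      (u.eval M.toStr (Fin.cons (α := fun _ => M.carrier) a v)) := by
  have h2 := tf hM (n := n + 4) (imp (.le v0 v1) (.le (sub (c4 v0) u) (sub (c4 v1) u)))
    (((Opn.le _ _).imp (Opn.le _ _)) _ _) (fun w => by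
      simp only [eval_imp, FR.eval, eval_sub, eval_c4]
      intro h3
      exact ev_cons_mono u _ h3) (env4 x a a a v)
  simp only [eval_imp, FR.eval, eval_sub, eval_c4] at h2
  exact h2 h

theorem nat_ind (p : ℕ → Prop) (a : ℕ) : ¬ p 0 ∨ (∃ x, x ≤ a ∧ p x ∧ ¬ p (x + 1)) ∨ p a := by
  by_contra h
  push Not at h
  obtain ⟨h1, h2, h3⟩ := h
  apply h3
  have h4 : ∀ x, x ≤ a → p x := by
    intro x
    induction x with
    | zero => intro _; exact h1
    | succ x ih => intro hx; exact h2 x (by omega) (ih (by omega))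
  exact h4 a le_rfl

theorem indM (hM : Sat1 M (wld K S)) (hS : Lac S) {n : ℕ} (φ : FR (n + 1)) : M.Ind φ := by
  intro v h0 hs a
  have hb := basicM hM hS
  obtain ⟨e, s, hc⟩ := exists_comp hM hS
    ((bd φ).eval M.toStr (Fin.cons (α := fun _ => M.carrier) (M.succ a) v))
  have hk : ∀ x, M.le x (M.succ a) →
      (DM M φ (Fin.cons (α := fun _ => M.carrier) x v) e s
        ((bd φ).eval M.toStr (Fin.cons (α := fun _ => M.carrier) (M.succ a) v)) ↔
        φ.eval M (Fin.cons (α := fun _ => M.carrier) x v)) := fun x hx =>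
    key hM e s _ hc φ _ (term_mono hM (bd φ) v x (M.succ a) hx)
  generalize (bd φ).eval M.toStr (Fin.cons (α := fun _ => M.carrier) (M.succ a) v) = y at hk
  have h := tf hM (n := n + 4) (.or (.not (D φ (c4 .zero) v1 v2 v3))
      (.or (.ex v0 (.and (D φ (c5 v0) v2 v3 v4) (.not (D φ (c5 (.succ v0)) v2 v3 v4))))
        (D φ (c4 v0) v1 v2 v3)))
    (.or ((opn_D _ _ _ _ _).not _ _) (.or (.ex _ (((opn_D _ _ _ _ _).and
      (opn_D _ _ _ _ _).not) _ _)) (opn_D _ _ _ _ _ _ _))) (fun w => by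
      simp only [FR.eval, eval_D, eval_c4, eval_c5]
      rcases nat_ind (fun x => evF (W (w (Fin.succ 0)) (w (Fin.succ (Fin.succ 0)))
        (w (Fin.succ (Fin.succ (Fin.succ 0))))) φ
          (Fin.cons (α := fun _ => ℕ) x (fun i => w i.succ.succ.succ.succ))) (w 0) with
        h | ⟨x, h, h1, h2⟩ | h
      · exact Or.inl fun h4 => h ((DM_nat S φ _ _ _ _).1 h4)
      · exact Or.inr (Or.inl ⟨x, h, (DM_nat S φ _ _ _ _).2 h1,
          fun h4 => h2 ((DM_nat S φ _ _ _ _).1 h4)⟩)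
      · exact Or.inr (Or.inr ((DM_nat S φ _ _ _ _).2 h))) (env4 a e s y v)
  simp only [FR.eval, eval_D, eval_c4, eval_c5] at h
  have ha : M.le a (M.succ a) := at_ hM hS (n := 1) (.le v0 (.succ v0)) (fun w => by
    simp only [FR.eval, Tm.eval]
    exact Nat.le_succ _) (fun _ => a)
  rcases h with h | ⟨x, h1, h2, h3⟩ | h
  · exact absurd ((hk _ (hb.b3 _)).2 h0) h
  · exfalso
    have hx1 : M.le x (M.succ a) := hb.b1 _ _ h1
    have hx2 : M.le (M.succ x) (M.succ a) := by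
      have h5 := at_ hM hS (n := 2) (imp (.le v0 v1) (.le (.succ v0) (.succ v1))) (fun w => by
        simp only [eval_imp, FR.eval, Tm.eval]
        exact Nat.succ_le_succ) ![x, a]
      simp only [eval_imp, FR.eval, Tm.eval] at h5
      exact h5 h1
    exact h3 ((hk _ hx2).2 (hs x ((hk _ hx1).1 h2)))
  · exact (hk _ ha).1 h

theorem modelM (hM : Sat1 M (wld K S)) (hS : Lac S) (i : ℕ) : M.IsModelT i :=
  ⟨basicM hM hS, fun _ φ _ => indM hM hS φ⟩

end Pool.Agent.V8H57.BX
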