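import Pool.Agent.V8H57.BX.Model

/-!
# The true sentences of the lowest level decide all true sentences
-/

set_option autoImplicit false

namespace Pool.Agent.V8H57.BX

open Pool.Agent.TH686.BA

variable {M : StrR} {S : ℕ → Prop}

theorem le_of_add (hM : Sat1 M (wld K S)) (a b y : M.carrier) (h : M.le (M.add a b) y) :
    M.le a y ∧ M.le b y := by
  have h := tf hM (n := 0 + 3) (imp (.le (.add v0 v1) v2) (.and (.le v0 v2) (.le v1 v2)))
    (((Opn.le _ _).imp ((Opn.le _ _).and (Opn.le _ _))) _ _) (fun w => by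
      simp only [eval_imp, FR.eval, Tm.eval]
      intro h1
      exact ⟨le_trans (Nat.le_add_right _ _) h1, le_trans (Nat.le_add_left _ _) h1⟩)
    (env3 a b y (fun i => i.elim0))
  simp only [eval_imp, FR.eval, Tm.eval] at h
  exact h ‹_›

theorem bd_le (hM : Sat1 M (wld K S)) {n : ℕ} (t : Tm n) (u : Tm (n + 1))
    (v : Fin n → M.carrier) (y a : M.carrier) (h0 : M.le a (t.eval M.toStr v))
    (h1 : M.le ((inst t u).eval M.toStr v) y) :
    M.le (u.eval M.toStr (Fin.cons (α := fun _ => M.carrier) a v)) y := by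
  have h := tf hM (n := n + 4) (imp (.and (.le v0 (sub a4 t)) (.le (sub a4 (inst t u)) v1))
      (.le (sub b4 u) v1))
    ((((Opn.le _ _).and (Opn.le _ _)).imp (Opn.le _ _)) _ _) (fun w => by
      simp only [eval_imp, FR.eval, eval_sub, eval_b4, eval_inst]
      rintro ⟨h2, h3⟩
      refine le_trans ?_ h3
      exact ev_cons_mono u _ h2) (env4 a y y y v)
  simp only [eval_imp, FR.eval, eval_sub, eval_b4, eval_inst] at h
  rw [eval_inst] at h1
  exact h ⟨h0, h1⟩

/-- Truth in the structure and truth in the described world agree. -/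
theorem key (hM : Sat1 M (wld K S)) (e s y : M.carrier)
    (h1 : ∀ m, M.le m y → (RM M m ↔ MM M m e s y)) {n : ℕ} (φ : FR n) :
    ∀ v : Fin n → M.carrier, M.le ((bd φ).eval M.toStr v) y →
      (DM M φ v e s y ↔ φ.eval M v) := by
  induction φ with
  | eq s' t' => intro v _; exact dm_eq hM s' t' v e s y
  | le s' t' => intro v _; exact dm_le hM s' t' v e s y
  | rel t => intro v h; exact dm_rel hM t v e s y h h1
  | not φ ih => intro v h; exact (dm_not hM φ v e s y).trans (not_congr (ih v h))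
  | and φ ψ ih1 ih2 =>
    intro v h
    have h2 := le_of_add hM _ _ _ h
    exact (dm_and hM φ ψ v e s y).trans (and_congr (ih1 v h2.1) (ih2 v h2.2))
  | or φ ψ ih1 ih2 =>
    intro v h
    have h2 := le_of_add hM _ _ _ h
    exact (dm_or hM φ ψ v e s y).trans (or_congr (ih1 v h2.1) (ih2 v h2.2))
  | all t φ ih =>
    intro v h
    constructor
    · intro h2 a ha
      exact (ih _ (bd_le hM t (bd φ) v y a ha h)).1 (dm_all_mp hM t φ v e s y a ha h2)
    · intro h2
      by_contra h3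
      obtain ⟨a, ha, h4⟩ := dm_all_mpr hM t φ v e s y h3
      exact h4 ((ih _ (bd_le hM t (bd φ) v y a ha h)).2 (h2 a ha))
  | ex t φ ih =>
    intro v h
    constructor
    · intro h2
      obtain ⟨a, ha, h4⟩ := dm_ex_mp hM t φ v e s y h2
      exact ⟨a, ha, (ih _ (bd_le hM t (bd φ) v y a ha h)).1 h4⟩
    · rintro ⟨a, ha, h4⟩
      exact dm_ex_mpr hM t φ v e s y a ha ((ih _ (bd_le hM t (bd φ) v y a ha h)).2 h4)

theorem exists_sm (hM : Sat1 M (wld K S)) (y : M.carrier) : ∃ e, SmM M e y := by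
  have h := tf hM (n := 1) (.ex (.add v0 v0) (Sm v0 v1)) (.ex _ (opn_Sm _ _ _ _)) (fun w => by
      simp only [FR.eval, eval_Sm, Tm.eval]
      obtain ⟨e, h1, h2⟩ := exists_small S (w 0)
      exact ⟨e, h1, (SmM_nat S _ _).2 h2⟩) (fun _ => y)
  simp only [FR.eval, eval_Sm, Tm.eval] at h
  obtain ⟨e, -, h2⟩ := h
  exact ⟨e, h2⟩

theorem comp_some (hM : Sat1 M (wld K S)) (hS : Lac S) (e s y : M.carrier) (h0 : SmM M e y)
    (h1 : RM M s) (h2 : M.le (M.len y) s) (h3 : M.le s y) (m : M.carrier) (hm : M.le m y) :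
    RM M m ↔ MM M m e s y := by
  have h := tf hM (n := 0 + 4) (imp (.and (Sm v1 v3) (.and (R1 v2) (.and (.le (.len v3) v2)
      (.and (.le v2 v3) (.le v0 v3))))) (ifff (R1 v0) (MB v0 v1 v2 v3)))
    ((((opn_Sm _ _).and ((opn_R1 _).and ((Opn.le _ _).and ((Opn.le _ _).and
      (Opn.le _ _))))).imp ((opn_R1 _).ifff (opn_MB _ _ _ _))) _ _) (fun w => by
      simp only [eval_imp, eval_ifff, FR.eval, eval_Sm, eval_R1, eval_MB, Tm.eval]
      rintro ⟨h4, h5, h6, h7, h8⟩
      exact (RM_nat S _).trans ((fs_of_some hS ((SmM_nat S _ _).1 h4) ((RM_nat S _).1 h5) h6 h7 _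
        h8).trans (MM_nat S _ _ _ _).symm)) (env4 m e s y (fun i => i.elim0))
  simp only [eval_imp, eval_ifff, FR.eval, eval_Sm, eval_R1, eval_MB, Tm.eval] at h
  exact h ⟨h0, h1, h2, h3, hm⟩

theorem comp_none (hM : Sat1 M (wld K S)) (e y : M.carrier) (h0 : SmM M e y)
    (h1 : ∀ m, M.le m y → M.le (M.len y) m → ¬ RM M m) (m : M.carrier) (hm : M.le m y) :
    RM M m ↔ MM M m e M.zero y := by
  have h := tf hM (n := 0 + 4) (imp (.and (Sm v1 v3) (.and (.le v0 v3)
      (imp (.le (.len v3) v0) (.not (R1 v0))))) (ifff (R1 v0) (MB v0 v1 .zero v3)))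
    ((((opn_Sm _ _).and ((Opn.le _ _).and ((Opn.le _ _).imp (opn_R1 _).not))).imp
      ((opn_R1 _).ifff (opn_MB _ _ _ _))) _ _) (fun w => by
      simp only [eval_imp, eval_ifff, FR.eval, eval_Sm, eval_R1, eval_MB, Tm.eval]
      rintro ⟨h4, h5, h6⟩
      refine (RM_nat S _).trans ((fs_of_none ((SmM_nat S _ _).1 h4) _ ?_).trans
        (MM_nat S _ _ _ _).symm)
      intro h7
      exact lt_of_not_ge fun h8 => h6 h8 ((RM_nat S _).2 h7)) (env4 m e y y (fun i => i.elim0))
  simp only [eval_imp, eval_ifff, FR.eval, eval_Sm, eval_R1, eval_MB, Tm.eval] at h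
  exact h ⟨h0, hm, h1 m hm⟩

/-- the final sentences for a true formula -/
theorem fin_none (hM : Sat1 M (wld K S)) {n : ℕ} (φ : FR n) (hφ : Tr (wld K S) φ)
    (v : Fin n → M.carrier) (e : M.carrier) (h0 : SmM M e ((bd φ).eval M.toStr v)) :
    DM M φ v e M.zero ((bd φ).eval M.toStr v) ∨
      ∃ m, M.le m ((bd φ).eval M.toStr v) ∧ M.le (M.len ((bd φ).eval M.toStr v)) m ∧ RM M m := by
  have h := tf hM (n := n + 3) (.or (.not (Sm v0 (sub a3 (bd φ))))
      (.or (D φ a3 v0 .zero (sub a3 (bd φ))) (.ex (sub a3 (bd φ))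
        (.and (.le (.len (sub a4 (bd φ))) v0) (R1 v0)))))
    (.or ((opn_Sm _ _).not _ _) (.or (opn_D _ _ _ _ _ _ _)
      (.ex _ (((Opn.le _ _).and (opn_R1 _)) _ _)))) (fun w => by
      simp only [FR.eval, eval_Sm, eval_R1, eval_D, eval_sub, Tm.eval]
      by_cases h1 : SmM (NS S) (v0.eval (NS S).toStr w)
        ((bd φ).eval (NS S).toStr fun i => (a3 i).eval (NS S).toStr w)
      · right
        by_cases h2 : ∃ m : ℕ, m ≤ (ev (bd φ) fun i => (a3 i).eval (NS S).toStr w) ∧
          (ev (bd φ) fun i => (a3 i).eval (NS S).toStr w).size ≤ m ∧ S m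
        · right
          obtain ⟨m, h3, h4, h5⟩ := h2
          exact ⟨m, h3, h4, (RM_nat S m).2 h5⟩
        · left
          refine (DM_nat S φ _ _ _ _).2 ?_
          refine (complete ?_ φ _ le_rfl).1 (hφ _)
          intro m hm
          refine fs_of_none ((SmM_nat S _ _).1 h1) m fun h3 => ?_
          by_contra h4
          exact h2 ⟨m, hm, not_lt.1 h4, h3⟩
      · exact Or.inl h1) (env3 e e e v)
  simp only [FR.eval, eval_Sm, eval_R1, eval_D, eval_sub, Tm.eval] at h
  rcases h with h | h | ⟨m, h2, h3, h4⟩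
  · exact absurd h0 h
  · exact Or.inl h
  · exact Or.inr ⟨m, h2, h3, h4⟩

theorem fin_some (hM : Sat1 M (wld K S)) (hS : Lac S) {n : ℕ} (φ : FR n)
    (hφ : Tr (wld K S) φ) (v : Fin n → M.carrier) (e s : M.carrier)
    (h0 : SmM M e ((bd φ).eval M.toStr v)) (h1 : RM M s)
    (h2 : M.le (M.len ((bd φ).eval M.toStr v)) s) (h3 : M.le s ((bd φ).eval M.toStr v)) :
    DM M φ v e s ((bd φ).eval M.toStr v) := by
  have h := tf hM (n := n + 3) (imp (.and (Sm v0 (sub a3 (bd φ))) (.and (R1 v1)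
      (.and (.le (.len (sub a3 (bd φ))) v1) (.le v1 (sub a3 (bd φ))))))
      (D φ a3 v0 v1 (sub a3 (bd φ))))
    ((((opn_Sm _ _).and ((opn_R1 _).and ((Opn.le _ _).and (Opn.le _ _)))).imp
      (opn_D _ _ _ _ _)) _ _) (fun w => by
      simp only [eval_imp, FR.eval, eval_Sm, eval_R1, eval_D, eval_sub, Tm.eval]
      rintro ⟨h4, h5, h6, h7⟩
      refine (DM_nat S φ _ _ _ _).2 ?_
      refine (complete ?_ φ _ le_rfl).1 (hφ _)
      intro m hm
      exact fs_of_some hS ((SmM_nat S _ _).1 h4) ((RM_nat S _).1 h5) h6 h7 m hm) (env3 e s s v)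
  simp only [eval_imp, FR.eval, eval_Sm, eval_R1, eval_D, eval_sub, Tm.eval] at h
  exact h ⟨h0, h1, h2, h3⟩

theorem le_refl' (hM : Sat1 M (wld K S)) (y : M.carrier) : M.le y y := by
  have h := tf hM (n := 1) (.le v0 v0) (.le _ _) (fun w => by
    simp only [FR.eval]
    exact Nat.le_refl _) (fun _ => y)
  exact h

/-- Every true sentence holds in the structure. -/
theorem all_true (hM : Sat1 M (wld K S)) (hS : Lac S) {n : ℕ} (φ : FR n)
    (hφ : Tr (wld K S) φ) (v : Fin n → M.carrier) : φ.eval M v := by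
  obtain ⟨e, he⟩ := exists_sm hM ((bd φ).eval M.toStr v)
  have hr := le_refl' hM ((bd φ).eval M.toStr v)
  by_cases h : ∃ m, M.le m ((bd φ).eval M.toStr v) ∧
      M.le (M.len ((bd φ).eval M.toStr v)) m ∧ RM M m
  · obtain ⟨m, h1, h2, h3⟩ := h
    exact (key hM e m _ (comp_some hM hS e m _ he h3 h2 h1) φ v hr).1
      (fin_some hM hS φ hφ v e m he h3 h2 h1)
  · refine (key hM e M.zero _ (comp_none hM e _ he fun m h1 h2 h3 => h ⟨m, h1, h2, h3⟩) φ v hr).1
      ((fin_none hM φ hφ v e he).resolve_right h)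

end Pool.Agent.V8H57.BX
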