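import Pool.Agent.V8H57.BX.NatW

/-!
# Structures satisfying the true sentences of the lowest level
-/

set_option autoImplicit false

namespace Pool.Agent.V8H57.BX

open Pool.Agent.TH686.BA

/-- `M` satisfies the universal closures of the true `Σᵇ₁`-formulas -/
def Sat1 (M : StrR) (A : ℕ → Prop) : Prop :=
  ∀ (n : ℕ) (θ : FR n), Lv true 1 θ → Tr A θ → ∀ v : Fin n → M.carrier, θ.eval M v

/-- an environment -/
def env3 {X : Type} {n : ℕ} (e s y : X) (v : Fin n → X) : Fin (n + 3) → X :=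
  Fin.cons (α := fun _ => X) e (Fin.cons (α := fun _ => X) s (Fin.cons (α := fun _ => X) y v))

/-- an environment -/
def env4 {X : Type} {n : ℕ} (a e s y : X) (v : Fin n → X) : Fin (n + 4) → X :=
  Fin.cons (α := fun _ => X) a (env3 e s y v)

/-- the variable 0 -/
def v0 {n : ℕ} : Tm (n + 1) := .var 0
/-- the variable 1 -/
def v1 {n : ℕ} : Tm (n + 2) := .var (Fin.succ 0)
/-- the variable 2 -/
def v2 {n : ℕ} : Tm (n + 3) := .var (Fin.succ (Fin.succ 0))
/-- the variable 3 -/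
def v3 {n : ℕ} : Tm (n + 4) := .var (Fin.succ (Fin.succ (Fin.succ 0)))
/-- the other variables -/
def a3 {n : ℕ} (i : Fin n) : Tm (n + 3) := .var i.succ.succ.succ
/-- the other variables -/
def a4 {n : ℕ} (i : Fin n) : Tm (n + 4) := .var i.succ.succ.succ.succ
/-- the other variables, and the first one -/
def b4 {n : ℕ} : Fin (n + 1) → Tm (n + 4) := Fin.cons (α := fun _ => Tm (n + 4)) v0 a4

theorem eval_b4 (M : Str) {n : ℕ} (w : Fin (n + 4) → M.carrier) :
    (fun i => (b4 (n := n) i).eval M w) =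
      Fin.cons (α := fun _ => M.carrier) (w 0) (fun i => w i.succ.succ.succ.succ) := by
  funext i
  refine Fin.cases ?_ (fun j => ?_) i
  · rfl
  · rfl

variable {M : StrR} {S : ℕ → Prop}

theorem tf (hM : Sat1 M (wld K S)) {n : ℕ} (θ : FR n) (h : Lv true 1 θ)
    (ht : ∀ w : Fin n → (NS S).carrier, θ.eval (NS S) w) (v : Fin n → M.carrier) :
    θ.eval M v := hM n θ h ht v

theorem dm_eq (hM : Sat1 M (wld K S)) {n : ℕ} (s' t' : Tm n) (v : Fin n → M.carrier)
    (e s y : M.carrier) :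
    DM M (.eq s' t') v e s y ↔ s'.eval M.toStr v = t'.eval M.toStr v := by
  have h := tf hM (n := n + 3) (ifff (D (.eq s' t') a3 v0 v1 v2) (.eq (sub a3 s') (sub a3 t')))
    (((opn_D _ _ _ _ _).ifff (Opn.eq _ _)) _ _) (fun w => by
      rw [eval_ifff, eval_D]
      simp only [FR.eval, eval_sub]
      exact DM_nat S (.eq s' t') _ _ _ _) (env3 e s y v)
  rw [eval_ifff, eval_D] at h
  simp only [FR.eval, eval_sub] at h
  exact h

theorem dm_le (hM : Sat1 M (wld K S)) {n : ℕ} (s' t' : Tm n) (v : Fin n → M.carrier)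
    (e s y : M.carrier) :
    DM M (.le s' t') v e s y ↔ M.le (s'.eval M.toStr v) (t'.eval M.toStr v) := by
  have h := tf hM (n := n + 3) (ifff (D (.le s' t') a3 v0 v1 v2) (.le (sub a3 s') (sub a3 t')))
    (((opn_D _ _ _ _ _).ifff (Opn.le _ _)) _ _) (fun w => by
      rw [eval_ifff, eval_D]
      simp only [FR.eval, eval_sub]
      exact DM_nat S (.le s' t') _ _ _ _) (env3 e s y v)
  rw [eval_ifff, eval_D] at h
  simp only [FR.eval, eval_sub] at h
  exact h

theorem dm_not (hM : Sat1 M (wld K S)) {n : ℕ} (φ : FR n) (v : Fin n → M.carrier)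
    (e s y : M.carrier) : DM M (.not φ) v e s y ↔ ¬ DM M φ v e s y := by
  have h := tf hM (n := n + 3) (ifff (D (.not φ) a3 v0 v1 v2) (.not (D φ a3 v0 v1 v2)))
    (((opn_D _ _ _ _ _).ifff (opn_D _ _ _ _ _).not) _ _) (fun w => by
      rw [eval_ifff, eval_D]
      simp only [FR.eval, eval_D]
      exact (DM_nat S (.not φ) _ _ _ _).trans (not_congr (DM_nat S φ _ _ _ _).symm))
    (env3 e s y v)
  rw [eval_ifff, eval_D] at h
  simp only [FR.eval, eval_D] at h
  exact h

theorem dm_and (hM : Sat1 M (wld K S)) {n : ℕ} (φ ψ : FR n) (v : Fin n → M.carrier)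
    (e s y : M.carrier) : DM M (.and φ ψ) v e s y ↔ DM M φ v e s y ∧ DM M ψ v e s y := by
  have h := tf hM (n := n + 3) (ifff (D (.and φ ψ) a3 v0 v1 v2) (.and (D φ a3 v0 v1 v2) (D ψ a3 v0 v1 v2)))
    (((opn_D _ _ _ _ _).ifff ((opn_D _ _ _ _ _).and (opn_D _ _ _ _ _))) _ _) (fun w => by
      rw [eval_ifff, eval_D]
      simp only [FR.eval, eval_D]
      exact (DM_nat S (.and φ ψ) _ _ _ _).trans
        (and_congr (DM_nat S φ _ _ _ _).symm (DM_nat S ψ _ _ _ _).symm))
    (env3 e s y v)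
  rw [eval_ifff, eval_D] at h
  simp only [FR.eval, eval_D] at h
  exact h

theorem dm_or (hM : Sat1 M (wld K S)) {n : ℕ} (φ ψ : FR n) (v : Fin n → M.carrier)
    (e s y : M.carrier) : DM M (.or φ ψ) v e s y ↔ DM M φ v e s y ∨ DM M ψ v e s y := by
  have h := tf hM (n := n + 3) (ifff (D (.or φ ψ) a3 v0 v1 v2) (.or (D φ a3 v0 v1 v2) (D ψ a3 v0 v1 v2)))
    (((opn_D _ _ _ _ _).ifff ((opn_D _ _ _ _ _).or (opn_D _ _ _ _ _))) _ _) (fun w => by
      rw [eval_ifff, eval_D]
      simp only [FR.eval, eval_D]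
      exact (DM_nat S (.or φ ψ) _ _ _ _).trans
        (or_congr (DM_nat S φ _ _ _ _).symm (DM_nat S ψ _ _ _ _).symm))
    (env3 e s y v)
  rw [eval_ifff, eval_D] at h
  simp only [FR.eval, eval_D] at h
  exact h

theorem dm_ex_mp (hM : Sat1 M (wld K S)) {n : ℕ} (t : Tm n) (φ : FR (n + 1))
    (v : Fin n → M.carrier) (e s y : M.carrier) (h0 : DM M (.ex t φ) v e s y) :
    ∃ a, M.le a (t.eval M.toStr v) ∧
      DM M φ (Fin.cons (α := fun _ => M.carrier) a v) e s y := by
  have h := tf hM (n := n + 3) (imp (D (.ex t φ) a3 v0 v1 v2) (.ex (sub a3 t) (D φ b4 v1 v2 v3)))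
    (.or (((opn_D _ _ _ _ _).not) _ _) (.ex _ (opn_D _ _ _ _ _ _ _))) (fun w => by
      rw [eval_imp, eval_D]
      simp only [FR.eval, eval_D, eval_sub, eval_b4]
      intro h1
      obtain ⟨a, h2, h3⟩ := (DM_nat S (.ex t φ) _ _ _ _).1 h1
      exact ⟨a, h2, (DM_nat S φ _ _ _ _).2 h3⟩)
    (env3 e s y v)
  rw [eval_imp, eval_D] at h
  simp only [FR.eval, eval_D, eval_sub, eval_b4] at h
  exact h h0

theorem dm_ex_mpr (hM : Sat1 M (wld K S)) {n : ℕ} (t : Tm n) (φ : FR (n + 1))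
    (v : Fin n → M.carrier) (e s y a : M.carrier) (h0 : M.le a (t.eval M.toStr v))
    (h1 : DM M φ (Fin.cons (α := fun _ => M.carrier) a v) e s y) : DM M (.ex t φ) v e s y := by
  have h := tf hM (n := n + 4) (imp (.and (.le v0 (sub a4 t)) (D φ b4 v1 v2 v3))
      (D (.ex t φ) a4 v1 v2 v3))
    ((((Opn.le _ _).and (opn_D _ _ _ _ _)).imp (opn_D _ _ _ _ _)) _ _) (fun w => by
      rw [eval_imp, eval_D]
      simp only [FR.eval, eval_D, eval_sub, eval_b4]
      rintro ⟨h2, h3⟩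
      exact (DM_nat S (.ex t φ) _ _ _ _).2 ⟨_, h2, (DM_nat S φ _ _ _ _).1 h3⟩)
    (env4 a e s y v)
  rw [eval_imp, eval_D] at h
  simp only [FR.eval, eval_D, eval_sub, eval_b4] at h
  exact h ⟨h0, h1⟩

theorem dm_all_mp (hM : Sat1 M (wld K S)) {n : ℕ} (t : Tm n) (φ : FR (n + 1))
    (v : Fin n → M.carrier) (e s y a : M.carrier) (h0 : M.le a (t.eval M.toStr v))
    (h1 : DM M (.all t φ) v e s y) : DM M φ (Fin.cons (α := fun _ => M.carrier) a v) e s y := by
  have h := tf hM (n := n + 4) (imp (.and (.le v0 (sub a4 t)) (D (.all t φ) a4 v1 v2 v3))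
      (D φ b4 v1 v2 v3))
    ((((Opn.le _ _).and (opn_D _ _ _ _ _)).imp (opn_D _ _ _ _ _)) _ _) (fun w => by
      rw [eval_imp, eval_D]
      simp only [FR.eval, eval_D, eval_sub, eval_b4]
      rintro ⟨h2, h3⟩
      exact (DM_nat S φ _ _ _ _).2 ((DM_nat S (.all t φ) _ _ _ _).1 h3 _ h2))
    (env4 a e s y v)
  rw [eval_imp, eval_D] at h
  simp only [FR.eval, eval_D, eval_sub, eval_b4] at h
  exact h ⟨h0, h1⟩

theorem dm_all_mpr (hM : Sat1 M (wld K S)) {n : ℕ} (t : Tm n) (φ : FR (n + 1))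
    (v : Fin n → M.carrier) (e s y : M.carrier) (h0 : ¬ DM M (.all t φ) v e s y) :
    ∃ a, M.le a (t.eval M.toStr v) ∧
      ¬ DM M φ (Fin.cons (α := fun _ => M.carrier) a v) e s y := by
  have h := tf hM (n := n + 3) (imp (.not (D (.all t φ) a3 v0 v1 v2))
      (.ex (sub a3 t) (.not (D φ b4 v1 v2 v3))))
    (.or (((opn_D _ _ _ _ _).not.not) _ _) (.ex _ ((opn_D _ _ _ _ _).not _ _))) (fun w => by
      rw [eval_imp]
      simp only [FR.eval, eval_D, eval_sub, eval_b4]
      intro h1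
      by_contra h2
      apply h1
      refine (DM_nat S (.all t φ) _ _ _ _).2 fun a ha => ?_
      by_contra h3
      exact h2 ⟨a, ha, fun h4 => h3 ((DM_nat S φ _ _ _ _).1 h4)⟩)
    (env3 e s y v)
  rw [eval_imp] at h
  simp only [FR.eval, eval_D, eval_sub, eval_b4] at h
  exact h h0

theorem dm_rel (hM : Sat1 M (wld K S)) {n : ℕ} (t : Tm n) (v : Fin n → M.carrier)
    (e s y : M.carrier) (h0 : M.le (t.eval M.toStr v) y)
    (h1 : ∀ m, M.le m y → (RM M m ↔ MM M m e s y)) :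
    DM M (.rel t) v e s y ↔ M.rel (t.eval M.toStr v) := by
  have h := tf hM (n := n + 3) (imp (.le (sub a3 t) v2)
      (.and (imp (.eq (sub a3 t) (.mul two (.half (sub a3 t))))
          (ifff (D (.rel t) a3 v0 v1 v2) (.rel (sub a3 t))))
        (imp (.not (.eq (sub a3 t) (.mul two (.half (sub a3 t)))))
          (.and (.eq (sub a3 t) (.succ (.mul two (.half (sub a3 t)))))
            (.and (.le (.half (sub a3 t)) v2)
              (ifff (D (.rel t) a3 v0 v1 v2) (MB (.half (sub a3 t)) v0 v1 v2)))))))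
    (((Opn.le _ _).imp (((Opn.eq _ _).imp ((opn_D _ _ _ _ _).ifff (Opn.rel _))).and
      ((Opn.eq _ _).not.imp ((Opn.eq _ _).and ((Opn.le _ _).and
        ((opn_D _ _ _ _ _).ifff (opn_MB _ _ _ _))))))) _ _) (fun w => by
      simp only [eval_imp, eval_ifff, FR.eval, eval_D, eval_sub, eval_MB, Tm.eval, eval_two]
      generalize hT : (t.eval (NS S).toStr fun i => (a3 i).eval (NS S).toStr w) = T
      intro hTy
      have hD : DM (NS S) (.rel t) (fun i => (a3 i).eval (NS S).toStr w)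
          (v0.eval (NS S).toStr w) (v1.eval (NS S).toStr w) (v2.eval (NS S).toStr w) ↔
          W (v0.eval (NS S).toStr w) (v1.eval (NS S).toStr w) (v2.eval (NS S).toStr w) T := by
        rw [← hT]
        exact DM_nat S (.rel t) _ _ _ _
      change ℕ at T
      constructor
      · intro h2
        rw [hD]
        have h3 : T = 2 * (T / 2) := h2
        show (T ≤ _ ∧ wld K _ T) ↔ wld K S T
        rw [h3, wld_even, wld_even, ← h3]
        exact ⟨fun h => h.2, fun h => ⟨hTy, h⟩⟩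
      · intro h2
        have h3 : ¬ T = 2 * (T / 2) := h2
        have h4 : T = 2 * (T / 2) + 1 := by omega
        refine ⟨h4, show T / 2 ≤ _ from le_trans (Nat.div_le_self _ _) hTy, ?_⟩
        rw [hD]
        refine Iff.trans ?_ (MM_nat S _ _ _ _).symm
        show (T ≤ _ ∧ wld K _ T) ↔ Fs _ _ _ (T / 2)
        constructor
        · rintro ⟨-, h5⟩
          rw [h4, wld_odd] at h5
          have h6 : (2 * (T / 2) + 1) / 2 = T / 2 := by omega
          exact h5
        · intro h5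
          refine ⟨hTy, ?_⟩
          rw [h4, wld_odd]
          exact h5)
    (env3 e s y v)
  simp only [eval_imp, eval_ifff, FR.eval, eval_D, eval_sub, eval_MB, Tm.eval, eval_two] at h
  obtain ⟨h2, h3⟩ := h h0
  by_cases hc : t.eval M.toStr v = M.mul (twoM M.toStr) (M.half (t.eval M.toStr v))
  · exact h2 hc
  · obtain ⟨h4, h5, h6⟩ := h3 hc
    refine h6.trans ((h1 _ h5).symm.trans ?_)
    show M.rel (M.succ (M.mul (twoM M.toStr) (M.half (t.eval M.toStr v)))) ↔ _
    have h7 : t.eval M.toStr v =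
      M.succ (M.mul (twoM M.toStr) (M.half (t.eval M.toStr v))) := h4
    rw [← h7]

end Pool.Agent.V8H57.BX
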