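import Pool.Agent.V8H57.BX.Ind
import Pool.Agent.V8H57.BX.Hid

/-!
# The normal form of bounded formulas in the standard structure
-/

set_option autoImplicit false

namespace Pool.Agent.V8H57.BX

open Pool.Agent.TH686.BA

variable {S : ℕ → Prop}

/-- the other variables -/
def a1 {n : ℕ} (i : Fin n) : Tm (n + 1) := .var i.succ
/-- the other variables -/
def a2 {n : ℕ} (i : Fin n) : Tm (n + 2) := .var i.succ.succ

/-- some element between `|y|` and `y` is in the set, and `φ` holds in the world described -/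
def sg {n : ℕ} (φ : FR n) : FR n :=
  .ex (bd φ) (.ex (.add (sub a1 (bd φ)) (sub a1 (bd φ))) (.and (Sm v0 (sub a2 (bd φ)))
    (.and (R1 v1) (.and (.le (.len (sub a2 (bd φ))) v1) (D φ a2 v0 v1 (sub a2 (bd φ)))))))

/-- no element between `|y|` and `y` is in the set, and `φ` holds in the world described -/
def pg {n : ℕ} (φ : FR n) : FR n :=
  .and (.all (bd φ) (imp (.le (.len (sub a1 (bd φ))) v0) (.not (R1 v0))))
    (.all (.add (bd φ) (bd φ)) (imp (Sm v0 (sub a1 (bd φ))) (D φ a1 v0 .zero (sub a1 (bd φ)))))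

theorem lv_sg {n : ℕ} (φ : FR n) : Lv true 1 (sg φ) :=
  .ex _ (.ex _ (((opn_Sm _ _).and ((opn_R1 _).and ((Opn.le _ _).and (opn_D _ _ _ _ _)))) _ _))

theorem lv_pg {n : ℕ} (φ : FR n) : Lv false 1 (pg φ) :=
  .and (.all _ (((Opn.le _ _).imp (opn_R1 _).not) _ _))
    (.all _ (((opn_Sm _ _).imp (opn_D _ _ _ _ _)) _ _))

theorem normal (hS : Lac S) {n : ℕ} (φ : FR n) (v : Fin n → (NS S).carrier) :
    φ.eval (NS S) v ↔ ((sg φ).eval (NS S) v ∨ (pg φ).eval (NS S) v) := by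
  simp only [sg, pg, FR.eval, eval_imp, eval_Sm, eval_R1, eval_D, eval_sub, Tm.eval]
  have hv1 : ∀ a : (NS S).carrier, (fun i => (a1 i).eval (NS S).toStr
      (Fin.cons (α := fun _ => (NS S).carrier) a v)) = v := fun a => rfl
  have hv2 : ∀ a b : (NS S).carrier, (fun i => (a2 i).eval (NS S).toStr
      (Fin.cons (α := fun _ => (NS S).carrier) a
        (Fin.cons (α := fun _ => (NS S).carrier) b v))) = v := fun a b => rfl
  simp only [hv1, hv2]
  obtain ⟨e, he1, he2⟩ := exists_small S (ev (bd φ) v)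
  constructor
  · intro h
    by_cases hc : ∃ m : ℕ, m ≤ ev (bd φ) v ∧ (ev (bd φ) v).size ≤ m ∧ S m
    · left
      obtain ⟨m, h3, h4, h5⟩ := hc
      refine ⟨m, h3, e, he1, (SmM_nat S _ _).2 he2, (RM_nat S m).2 h5, h4, ?_⟩
      exact (DM_nat S φ _ _ _ _).2 ((complete (fs_of_some hS he2 h5 h4 h3) φ _ le_rfl).1 h)
    · right
      refine ⟨fun m h3 h4 h5 => hc ⟨m, h3, h4, (RM_nat S m).1 h5⟩, fun e' _ h4 => ?_⟩
      refine (DM_nat S φ _ _ _ _).2 ((complete (fun m hm => fs_of_none ((SmM_nat S _ _).1 h4) m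
        fun h5 => ?_) φ _ le_rfl).1 h)
      by_contra h6
      exact hc ⟨m, hm, not_lt.1 h6, h5⟩
  · rintro (⟨m, h3, e', _, h4, h5, h6, h7⟩ | ⟨h3, h4⟩)
    · exact (complete (fs_of_some hS ((SmM_nat S _ _).1 h4) ((RM_nat S m).1 h5) h6 h3) φ _
        le_rfl).2 ((DM_nat S φ _ _ _ _).1 h7)
    · have h5 := h4 e he1 ((SmM_nat S _ _).2 he2)
      refine (complete (fun m hm => fs_of_none he2 m fun h6 => ?_) φ _ le_rfl).2
        ((DM_nat S φ _ _ _ _).1 h5)
      exact lt_of_not_ge fun h7 => h3 m hm h7 ((RM_nat S m).2 h6)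

/-- the formula which defines the inputs hit by the set -/
def hitF : FR 1 := .ex v0 (.and (.le (.len v1) v0) (R1 v0))

theorem lv_hitF : Lv true 1 hitF := .ex _ (((Opn.le _ _).and (opn_R1 _)) _ _)

theorem eval_hitF (x : ℕ) : hitF.eval (NS S) (fun _ => x) ↔ Hit S x := by
  simp only [hitF, FR.eval, eval_R1, Tm.eval]
  constructor
  · rintro ⟨m, h1, h2, h3⟩
    exact ⟨m, h1, h2, (RM_nat S m).1 h3⟩
  · rintro ⟨m, h1, h2, h3⟩
    exact ⟨m, h1, h2, (RM_nat S m).2 h3⟩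

end Pool.Agent.V8H57.BX
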